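import Pool.Agent.X235.Alg.Defs
import Pool.Agent.X235.Gas.Gen

set_option autoImplicit false

/-!
Indices of c.e. sets, equality of c.e. sets and `E_0^{ce}`.
-/

namespace Pool.Agent.X235.Alg

open Encodable Nat.Partrec Pool.Agent.Helper446

/-- Equality of c.e. sets. -/
def Ceq (e e' : ℕ) : Prop := W e = W e'

theorem CRed.trans {E F G : ℕ → ℕ → Prop} (h1 : CRed E F) (h2 : CRed F G) : CRed E G := by
  obtain ⟨f, hf, h1⟩ := h1
  obtain ⟨g, hg, h2⟩ := h2
  exact ⟨fun x => g (f x), hg.comp hf, fun x y => (h1 x y).trans (h2 _ _)⟩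

theorem re_W : REPred fun p : ℕ × ℕ => p.2 ∈ W p.1 := by
  have h : Partrec fun p : ℕ × ℕ => (Denumerable.ofNat Code p.1).eval p.2 :=
    Code.eval_part.comp ((Computable.ofNat Code).comp Computable.fst) Computable.snd
  exact h.dom_re

theorem re_W' {α : Type} [Primcodable α] {f g : α → ℕ} (hf : Computable f) (hg : Computable g) :
    REPred fun a => g a ∈ W (f a) :=
  RE.comp re_W (f := fun a => (f a, g a)) (hf.pair hg)

theorem smn_idx {P : ℕ → ℕ → Prop} (h : REPred fun p : ℕ × ℕ => P p.1 p.2) :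
    ∃ f : ℕ → ℕ, Computable f ∧ ∀ e, W (f e) = {x | P e x} := by
  obtain ⟨c, hc⟩ := Nat.Partrec.Code.exists_code.1 h
  refine ⟨fun e => encode (Code.curry c e), ?_, fun e => ?_⟩
  · exact Computable.encode.comp ((Code.primrec₂_curry.comp (Primrec.const c)
      Primrec.id).to_comp)
  · ext x
    show ((Denumerable.ofNat Nat.Partrec.Code (encode (Code.curry c e))).eval x).Dom ↔ P e x
    rw [Denumerable.ofNat_encode, Code.eval_curry, hc]
    have h1 : decode (α := ℕ × ℕ) (Nat.pair e x) = some (e, x) := by simp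
    simp only [h1, Part.coe_some, Part.bind_some, Part.map_Dom]
    constructor
    · rintro ⟨h, -⟩; exact h
    · intro h; exact ⟨h, trivial⟩

theorem mem_W_iff {e z : ℕ} : z ∈ W e ↔ ∃ s, RE.wst ℕ e s z = true := by
  show ((Denumerable.ofNat Nat.Partrec.Code e).eval z).Dom ↔ _
  unfold RE.wst
  rw [Part.dom_iff_mem]
  constructor
  · rintro ⟨y, hy⟩
    obtain ⟨k, hk⟩ := Code.evaln_complete.1 hy
    refine ⟨k, ?_⟩
    rw [Option.mem_def] at hk
    show (Code.evaln k _ z).isSome = true
    rw [hk]; rfl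
  · rintro ⟨k, hk⟩
    obtain ⟨y, hy⟩ := Option.isSome_iff_exists.1 hk
    exact ⟨y, Code.evaln_complete.2 ⟨k, hy⟩⟩

theorem wst_comp' {α : Type} [Primcodable α] {f g h : α → ℕ} (hf : Computable f)
    (hg : Computable g) (hh : Computable h) : Computable fun a => RE.wst ℕ (f a) (g a) (h a) :=
  RE.wst_comp.comp (f := fun p : (ℕ × ℕ) × ℕ => RE.wst ℕ p.1.1 p.1.2 p.2)
    (g := fun a => ((f a, g a), h a)) ((hf.pair hg).pair hh)

theorem ceq_red_E0 : CRed Ceq E0ce := by
  obtain ⟨f, hf, h⟩ := smn_idx (P := fun e y => y.unpair.1 ∈ W e)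
    (re_W' (f := fun p : ℕ × ℕ => p.1) (g := fun p : ℕ × ℕ => p.2.unpair.1)
      (by fun_prop) (by fun_prop))
  refine ⟨f, hf, fun x y => ?_⟩
  unfold Ceq E0ce
  rw [h, h]
  constructor
  · intro hxy
    rw [hxy, symmDiff_self]
    exact Set.finite_empty
  · intro hfin
    by_contra hne
    have h1 : ∃ z, ¬ (z ∈ W x ↔ z ∈ W y) := by
      by_contra hcon
      push Not at hcon
      exact hne (Set.ext hcon)
    obtain ⟨z, hz⟩ := h1
    have h2 : Set.range (fun k => Nat.pair z k) ⊆
        symmDiff {y | y.unpair.1 ∈ W x} {u | u.unpair.1 ∈ W y} := by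
      rintro _ ⟨k, rfl⟩
      rw [Set.mem_symmDiff]
      simp only [Set.mem_ofPred_eq, Nat.unpair_pair]
      tauto
    refine Set.infinite_range_of_injective ?_ (hfin.subset h2)
    intro a b hab
    simpa using hab

theorem wst_not_mem {x z s : ℕ} (h : z ∉ W x) : RE.wst ℕ x s z = false := by
  rw [← Bool.not_eq_true]
  exact fun h2 => h (mem_W_iff.2 ⟨s, h2⟩)

/-- `E_0^{ce}` is not reducible to equality of c.e. sets. -/
theorem E0_not_red : ¬ CRed E0ce Ceq := by
  rintro ⟨f, hf, hred⟩
  obtain ⟨g0, -, hg0⟩ := smn_idx (P := fun _ _ => False) (RE.const False)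
  set e0 := g0 0 with he0
  have hW0 : W e0 = ∅ := by rw [he0, hg0]; rfl
  let V : ℕ → ℕ → Prop := fun x s => ∀ z < s + 1,
    (RE.wst ℕ (f x) s z = false ∨ z ∈ W (f e0)) ∧ (RE.wst ℕ (f e0) s z = false ∨ z ∈ W (f x))
  have hV : REPred fun p : ℕ × ℕ => V p.1 p.2 := by
    refine RE.all_lt (p := fun (p : ℕ × ℕ) z =>
      (RE.wst ℕ (f p.1) p.2 z = false ∨ z ∈ W (f e0)) ∧
      (RE.wst ℕ (f e0) p.2 z = false ∨ z ∈ W (f p.1))) ?_ (by fun_prop)
    have hfc : Computable fun z : (ℕ × ℕ) × ℕ => f z.1.1 := hf.comp (by fun_prop)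
    refine RE.and (RE.or (RE.eq ?_ (by fun_prop)) (re_W' (by fun_prop) (by fun_prop)))
      (RE.or (RE.eq ?_ (by fun_prop)) (re_W' hfc (by fun_prop)))
    · exact wst_comp' hfc (by fun_prop) (by fun_prop)
    · exact wst_comp' (by fun_prop) (by fun_prop) (by fun_prop)
  have hVeq : ∀ x, W (f x) = W (f e0) → ∀ s, V x s := by
    intro x hx s z _
    constructor
    · by_cases h : z ∈ W (f e0)
      · exact Or.inr h
      · left; rw [← hx] at h; exact wst_not_mem h
    · by_cases h : z ∈ W (f x)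
      · exact Or.inr h
      · left; rw [hx] at h; exact wst_not_mem h
  have hVne : ∀ x, W (f x) ≠ W (f e0) → {s | V x s}.Finite := by
    intro x hx
    have h1 : ∃ z, ¬ (z ∈ W (f x) ↔ z ∈ W (f e0)) := by
      by_contra hcon
      push Not at hcon
      exact hx (Set.ext hcon)
    obtain ⟨z, hz⟩ := h1
    by_cases hz1 : z ∈ W (f x)
    · have hz2 : z ∉ W (f e0) := fun h => hz ⟨fun _ => h, fun _ => hz1⟩
      obtain ⟨s, hs⟩ := mem_W_iff.1 hz1
      refine (Set.finite_lt_nat (max s z)).subset fun t ht => ?_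
      show t < max s z
      by_contra hcon
      push Not at hcon
      have h3 := (ht z (by omega)).1
      have h4 := RE.wst_mono (le_trans (le_max_left s z) hcon) hs
      rw [h4] at h3
      rcases h3 with h3 | h3
      · exact absurd h3 (by simp)
      · exact hz2 h3
    · have hz2 : z ∈ W (f e0) := by
        by_contra h
        exact hz ⟨fun h' => absurd h' hz1, fun h' => absurd h' h⟩
      obtain ⟨s, hs⟩ := mem_W_iff.1 hz2
      refine (Set.finite_lt_nat (max s z)).subset fun t ht => ?_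
      show t < max s z
      by_contra hcon
      push Not at hcon
      have h3 := (ht z (by omega)).2
      have h4 := RE.wst_mono (le_trans (le_max_left s z) hcon) hs
      rw [h4] at h3
      rcases h3 with h3 | h3
      · exact absurd h3 (by simp)
      · exact hz1 h3
  -- the recursion theorem
  have hfix : Partrec₂ fun (c : Code) (n : ℕ) =>
      (Part.assert (V (encode c) n) fun _ => Part.some ()).map fun _ => (0 : ℕ) := by
    have h1 : Partrec fun p : Code × ℕ => Part.assert (V (encode p.1) p.2) fun _ => Part.some () :=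
      RE.comp hV (f := fun p : Code × ℕ => (encode p.1, p.2))
        ((Computable.encode.comp Computable.fst).pair Computable.snd)
    exact h1.map (Computable.const 0).to₂
  obtain ⟨c, hc⟩ := Code.fixed_point₂ hfix
  have hWc : W (encode c) = {n | V (encode c) n} := by
    ext n
    show ((Denumerable.ofNat Nat.Partrec.Code (encode c)).eval n).Dom ↔ V (encode c) n
    rw [Denumerable.ofNat_encode, hc]
    simp only [Part.map_Dom]
    constructor
    · rintro ⟨h, -⟩; exact h
    · intro h; exact ⟨h, trivial⟩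
  have hE : E0ce (encode c) e0 ↔ (W (encode c)).Finite := by
    unfold E0ce
    rw [hW0]
    have : symmDiff (W (encode c)) ∅ = W (encode c) := symmDiff_bot _
    rw [this]
  by_cases hfin : (W (encode c)).Finite
  · have h1 := (hred _ _).1 (hE.2 hfin)
    have h2 := hVeq _ h1
    have h3 : W (encode c) = Set.univ := by
      rw [hWc]; ext n; simp [h2 n]
    rw [h3] at hfin
    exact Set.infinite_univ hfin
  · have h1 : ¬ W (f (encode c)) = W (f e0) := fun h => hfin (hE.1 ((hred _ _).2 h))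
    exact hfin (hWc ▸ hVne _ h1)

theorem E0_equiv : Equivalence E0ce := by
  constructor
  · intro x
    unfold E0ce
    rw [symmDiff_self]; exact Set.finite_empty
  · intro x y h
    unfold E0ce at h ⊢
    rw [symmDiff_comm]; exact h
  · intro x y z h1 h2
    unfold E0ce at h1 h2 ⊢
    exact (h1.union h2).subset (symmDiff_triangle _ _ _)

theorem E0_sigma3 : Sigma3 E0ce := by
  let R : (ℕ × ℕ) × ℕ × ℕ × ℕ → Prop := fun p =>
    p.2.2.1.unpair.1 < p.2.1 ∨
    ((RE.wst ℕ p.1.1 p.2.2.1.unpair.2 p.2.2.1.unpair.1 = false ∨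
      RE.wst ℕ p.1.2 p.2.2.2 p.2.2.1.unpair.1 = true) ∧
    (RE.wst ℕ p.1.2 p.2.2.1.unpair.2 p.2.2.1.unpair.1 = false ∨
      RE.wst ℕ p.1.1 p.2.2.2 p.2.2.1.unpair.1 = true))
  have key : ∀ {f : (ℕ × ℕ) × ℕ × ℕ × ℕ → Bool} (b : Bool), Computable f →
      ComputablePred fun p => f p = b := fun b hf => RE.cp_eq hf (Computable.const b)
  have hor : ∀ {P Q : (ℕ × ℕ) × ℕ × ℕ × ℕ → Prop}, ComputablePred P → ComputablePred Q →
      ComputablePred fun p => P p ∨ Q p := by
    intro P Q hP hQ
    refine RE.cp_of_re (RE.or hP.to_re hQ.to_re) ?_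
    refine (RE.and hP.not.to_re hQ.not.to_re).of_eq fun p => ?_
    tauto
  have hand : ∀ {P Q : (ℕ × ℕ) × ℕ × ℕ × ℕ → Prop}, ComputablePred P → ComputablePred Q →
      ComputablePred fun p => P p ∧ Q p := by
    intro P Q hP hQ
    refine RE.cp_of_re (RE.and hP.to_re hQ.to_re) ?_
    refine (RE.or hP.not.to_re hQ.not.to_re).of_eq fun p => ?_
    tauto
  refine ⟨R, ?_, ?_⟩
  · refine hor (RE.cp_lt (by fun_prop) (by fun_prop)) (hand (hor (key _ ?_) (key _ ?_))
      (hor (key _ ?_) (key _ ?_)))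
    all_goals exact wst_comp' (by fun_prop) (by fun_prop) (by fun_prop)
  · intro x y
    constructor
    · intro h
      obtain ⟨a, ha⟩ := h.bddAbove
      refine ⟨a + 1, fun b => ?_⟩
      by_cases hb : b.unpair.1 < a + 1
      · exact ⟨0, Or.inl hb⟩
      · have h1 : b.unpair.1 ∉ symmDiff (W x) (W y) := fun h2 => by
          have := ha h2; omega
        rw [Set.mem_symmDiff] at h1
        push Not at h1
        by_cases hx : b.unpair.1 ∈ W x
        · have hy := h1.1 hx
          obtain ⟨s, hs⟩ := mem_W_iff.1 hx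
          obtain ⟨t, ht⟩ := mem_W_iff.1 hy
          exact ⟨max s t, Or.inr ⟨Or.inr (RE.wst_mono (le_max_right _ _) ht),
            Or.inr (RE.wst_mono (le_max_left _ _) hs)⟩⟩
        · have hy : b.unpair.1 ∉ W y := fun hy => hx (h1.2 hy)
          exact ⟨0, Or.inr ⟨Or.inl (wst_not_mem hx), Or.inl (wst_not_mem hy)⟩⟩
    · rintro ⟨a, ha⟩
      refine (Set.finite_lt_nat a).subset fun z hz => ?_
      show z < a
      by_contra hcon
      rw [Set.mem_symmDiff] at hz
      rcases hz with ⟨h1, h2⟩ | ⟨h1, h2⟩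
      · obtain ⟨s, hs⟩ := mem_W_iff.1 h1
        obtain ⟨c, hc⟩ := ha (Nat.pair z s)
        simp only [R, Nat.unpair_pair] at hc
        rcases hc with hc | ⟨hc | hc, -⟩
        · exact hcon hc
        · rw [hs] at hc; exact absurd hc (by simp)
        · exact h2 (mem_W_iff.2 ⟨_, hc⟩)
      · obtain ⟨s, hs⟩ := mem_W_iff.1 h1
        obtain ⟨c, hc⟩ := ha (Nat.pair z s)
        simp only [R, Nat.unpair_pair] at hc
        rcases hc with hc | ⟨-, hc | hc⟩
        · exact hcon hc
        · rw [hs] at hc; exact absurd hc (by simp)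
        · exact h2 (mem_W_iff.2 ⟨_, hc⟩)

end Pool.Agent.X235.Alg
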