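import Mathlib

set_option autoImplicit false

/-!
C.e. presented algebras with unary operations, their isomorphism relations and computable
reducibility of equivalence relations: definitions.
-/

namespace Pool.Agent.X235.Alg

open Encodable

/-- The `e`-th c.e. set. -/
def W (e : ℕ) : Set ℕ := {x | ((Denumerable.ofNat Nat.Partrec.Code e).eval x).Dom}

/-- Computable reducibility of binary relations on `ℕ`. -/
def CRed (E F : ℕ → ℕ → Prop) : Prop :=
  ∃ f : ℕ → ℕ, Computable f ∧ ∀ x y, E x y ↔ F (f x) (f y)

/-- `E ≡_c F`. -/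
def CEquiv (E F : ℕ → ℕ → Prop) : Prop := CRed E F ∧ CRed F E

/-- `E <_c F`. -/
def CLt (E F : ℕ → ℕ → Prop) : Prop := CRed E F ∧ ¬ CRed F E

/-- Terms in the signature of unary function symbols `f_0, f_1, f_2, ...` over the variables (or
generators) `X`: the pair `(w, x)` with `w = [i, j, ..., k]` is the term `f_i (f_j (... (f_k x)))`. -/
abbrev Term (X : Type) : Type := List ℕ × X

/-- An algebra of this signature. -/
structure UAlg where
  /-- the underlying set -/
  carrier : Type
  /-- the operations `f_i` -/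
  op : ℕ → carrier → carrier

/-- The value of a term under an assignment. -/
def UAlg.val (A : UAlg) {X : Type} (v : X → A.carrier) (t : Term X) : A.carrier :=
  t.1.foldr A.op (v t.2)

/-- The algebra satisfies all laws of `L`, i.e. it belongs to the variety axiomatised by `L`. -/
def UAlg.Sat (A : UAlg) (L : Set (Term ℕ × Term ℕ)) : Prop :=
  ∀ p ∈ L, ∀ v : ℕ → A.carrier, A.val v p.1 = A.val v p.2

/-- Substitution of terms for variables. -/
def subst {X Y : Type} (v : X → Term Y) (t : Term X) : Term Y := (t.1 ++ (v t.2).1, (v t.2).2)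

/-- The congruence on the terms in `n` generators which is generated by all instances of the laws
`L` and by the equations `s ≈ t` with code in `S`. -/
inductive Cong (L : Set (Term ℕ × Term ℕ)) (n : ℕ) (S : Set ℕ) :
    Term (Fin n) → Term (Fin n) → Prop
  | law (p : Term ℕ × Term ℕ) (hp : p ∈ L) (v : ℕ → Term (Fin n)) :
      Cong L n S (subst v p.1) (subst v p.2)
  | eqn (s t : Term (Fin n)) (h : encode (s, t) ∈ S) : Cong L n S s t
  | refl (s : Term (Fin n)) : Cong L n S s s
  | symm (s t : Term (Fin n)) (h : Cong L n S s t) : Cong L n S t s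
  | trans (s t u : Term (Fin n)) (h : Cong L n S s t) (h' : Cong L n S t u) : Cong L n S s u
  | app (k : ℕ) (s t : Term (Fin n)) (h : Cong L n S s t) :
      Cong L n S (k :: s.1, s.2) (k :: t.1, t.2)

/-- The algebra `V_n[S]`: the free algebra on `n` generators of the variety axiomatised by `L`,
modulo the congruence generated by the equations with code in `S`. -/
def pres (L : Set (Term ℕ × Term ℕ)) (n : ℕ) (S : Set ℕ) : UAlg where
  carrier := Quot (Cong L n S)
  op k := Quot.map (fun s => (k :: s.1, s.2)) fun s t h => Cong.app k s t h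

/-- Isomorphism of algebras. -/
def Iso (A B : UAlg) : Prop :=
  ∃ φ : A.carrier ≃ B.carrier, ∀ k a, φ (A.op k a) = B.op k (φ a)

/-- The isomorphism relation `I_{V_n}` of `n`-generated c.e. presented members of the variety
axiomatised by `L`. -/
def IsoRel (L : Set (Term ℕ × Term ℕ)) (n : ℕ) (e e' : ℕ) : Prop :=
  Iso (pres L n (W e)) (pres L n (W e'))

/-- The relation `E_0^{ce}`: `W_e` and `W_{e'}` differ only on a finite set. -/
def E0ce (e e' : ℕ) : Prop := (symmDiff (W e) (W e')).Finite

/-- A binary relation on `ℕ` is `Σ⁰₃`. -/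
def Sigma3 (E : ℕ → ℕ → Prop) : Prop :=
  ∃ R : (ℕ × ℕ) × ℕ × ℕ × ℕ → Prop, ComputablePred R ∧
    ∀ x y, E x y ↔ ∃ a, ∀ b, ∃ c, R ((x, y), a, b, c)

/-- `E` is a `Σ⁰₃`-complete equivalence relation. -/
def Sigma3Complete (E : ℕ → ℕ → Prop) : Prop :=
  Equivalence E ∧ Sigma3 E ∧ ∀ F : ℕ → ℕ → Prop, Equivalence F → Sigma3 F → CRed F E

end Pool.Agent.X235.Alg
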