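import Pool.Agent.X235.Alg.Mono

set_option autoImplicit false

/-!
Varieties of sets with a transitive action of an abelian group: isomorphism of 1-generated
presentations is equality of subgroups.
-/

namespace Pool.Agent.X235.Alg

open Encodable Nat.Partrec Pool.Agent.Helper446

/-- Laws which axiomatise the sets with an action of the abelian group generated by `ν`. -/
structure GLaw (G : Type) [AddCommGroup G] (ν : ℕ → G) (L : Set (Term ℕ × Term ℕ)) : Prop where
  sound : ∀ p ∈ L, p.1.2 = p.2.2 ∧ (p.1.1.map ν).sum = (p.2.1.map ν).sum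
  comp : ∀ (S : Set ℕ) (u v : List ℕ) (x : Fin 1), (u.map ν).sum = (v.map ν).sum →
    Cong L 1 S (u, x) (v, x)
  inv : ∀ u : List ℕ, ∃ v : List ℕ, (v.map ν).sum = - (u.map ν).sum

variable {G : Type} [AddCommGroup G] {ν : ℕ → G} {L : Set (Term ℕ × Term ℕ)}

/-- The value of a word. -/
def ev (ν : ℕ → G) (u : List ℕ) : G := (u.map ν).sum

theorem ev_nil : ev ν [] = 0 := by simp [ev]

theorem ev_cons (k : ℕ) (u : List ℕ) : ev ν (k :: u) = ν k + ev ν u := by simp [ev]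

theorem ev_append (u v : List ℕ) : ev ν (u ++ v) = ev ν u + ev ν v := by simp [ev]

/-- The subgroup of a presentation. -/
def HH (ν : ℕ → G) (S : Set ℕ) : AddSubgroup G :=
  AddSubgroup.closure {g | ∃ u v : Term (Fin 1), encode (u, v) ∈ S ∧ g = ev ν u.1 - ev ν v.1}

theorem fin1 (x y : Fin 1) : x = y := Subsingleton.elim _ _

theorem GLaw.rep (hL : GLaw G ν L) (S : Set ℕ) {g : G} (hg : g ∈ HH ν S) :
    ∃ w, ev ν w = g ∧ Cong L 1 S (w, 0) ([], 0) := by
  induction hg using AddSubgroup.closure_induction with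
  | mem g hg =>
    obtain ⟨⟨u, x⟩, ⟨v, y⟩, h, rfl⟩ := hg
    obtain ⟨v', hv'⟩ := hL.inv v
    refine ⟨v' ++ u, ?_, ?_⟩
    · rw [ev_append]
      show (v'.map ν).sum + ev ν u = ev ν u - ev ν v
      rw [hv', sub_eq_neg_add]
      rfl
    · have h1 := cong_pre (Cong.eqn (L := L) _ _ h) v'
      rw [fin1 x 0, fin1 y 0] at h1
      refine Cong.trans _ _ _ h1 (hL.comp S _ _ _ ?_)
      simp [hv']
  | zero => exact ⟨[], ev_nil, Cong.refl _⟩
  | add g g' _ _ ih1 ih2 =>
    obtain ⟨w, h1, h2⟩ := ih1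
    obtain ⟨w', h3, h4⟩ := ih2
    refine ⟨w ++ w', by rw [ev_append, h1, h3], ?_⟩
    have h5 := cong_pre h4 w
    simp only [List.append_nil] at h5
    exact Cong.trans _ _ _ h5 h2
  | neg g _ ih =>
    obtain ⟨w, h1, h2⟩ := ih
    obtain ⟨w', h3⟩ := hL.inv w
    refine ⟨w', by rw [← h1]; exact h3, ?_⟩
    have h5 := cong_pre h2 w'
    simp only [List.append_nil] at h5
    refine Cong.trans _ _ _ (Cong.symm _ _ h5) (hL.comp S _ _ _ ?_)
    simp [h3]

theorem GLaw.cong_iff (hL : GLaw G ν L) (S : Set ℕ) (s t : Term (Fin 1)) :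
    Cong L 1 S s t ↔ ev ν s.1 - ev ν t.1 ∈ HH ν S := by
  constructor
  · intro h
    induction h with
    | law p hp v =>
      obtain ⟨h1, h2⟩ := hL.sound p hp
      have : ev ν (subst v p.1).1 - ev ν (subst v p.2).1 = 0 := by
        unfold subst
        simp only
        rw [ev_append, ev_append, h1]
        show (p.1.1.map ν).sum + _ - ((p.2.1.map ν).sum + _) = 0
        rw [h2]; abel
      rw [this]
      exact (HH ν S).zero_mem
    | eqn s t h => exact AddSubgroup.subset_closure ⟨s, t, h, rfl⟩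
    | refl s => rw [sub_self]; exact (HH ν S).zero_mem
    | symm s t _ ih => rw [← neg_sub]; exact (HH ν S).neg_mem ih
    | trans s t u _ _ ih1 ih2 => rw [← sub_add_sub_cancel]; exact (HH ν S).add_mem ih1 ih2
    | app k s t _ ih =>
      simp only [ev_cons, add_sub_add_left_eq_sub]
      exact ih
  · intro h
    obtain ⟨w, h1, h2⟩ := hL.rep S h
    obtain ⟨u, x⟩ := s
    obtain ⟨v, y⟩ := t
    simp only at h1 h2
    rw [fin1 x 0, fin1 y 0]
    have h5 := cong_pre h2 v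
    simp only [List.append_nil] at h5
    refine Cong.trans _ _ _ (hL.comp S _ (v ++ w) _ ?_) h5
    have : ev ν u = ev ν (v ++ w) := by rw [ev_append, h1]; abel
    exact this

theorem pres_mk_eq (L : Set (Term ℕ × Term ℕ)) (n : ℕ) (S : Set ℕ) {s t : Term (Fin n)} :
    (Quot.mk (Cong L n S) s = Quot.mk (Cong L n S) t) ↔ Cong L n S s t := by
  have h : Equivalence (Cong L n S) :=
    ⟨Cong.refl, fun h => Cong.symm _ _ h, fun h1 h2 => Cong.trans _ _ _ h1 h2⟩
  rw [Quot.eq, h.eqvGen_iff]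

theorem GLaw.iso_iff (hL : GLaw G ν L) (S S' : Set ℕ) :
    Iso (pres L 1 S) (pres L 1 S') ↔ HH ν S = HH ν S' := by
  constructor
  · rintro ⟨φ, hφ⟩
    obtain ⟨⟨w0, x0⟩, hw0⟩ : ∃ s : Term (Fin 1),
        φ (Quot.mk (Cong L 1 S) ([], 0)) = Quot.mk (Cong L 1 S') s := by
      obtain ⟨s, hs⟩ := Quot.exists_rep (φ (Quot.mk (Cong L 1 S) ([], 0)))
      exact ⟨s, hs.symm⟩
    have h1 : ∀ u : List ℕ, φ (Quot.mk (Cong L 1 S) (u, 0)) =
        Quot.mk (Cong L 1 S') (u ++ w0, x0) := by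
      intro u
      induction u with
      | nil => exact hw0
      | cons k u ih =>
        have h2 := hφ k (Quot.mk (Cong L 1 S) (u, 0))
        rw [ih] at h2
        exact h2
    have h2 : ∀ u v : List ℕ, (ev ν u - ev ν v ∈ HH ν S ↔ ev ν u - ev ν v ∈ HH ν S') := by
      intro u v
      rw [← hL.cong_iff S (u, 0) (v, 0), ← pres_mk_eq]
      have h3 : (Quot.mk (Cong L 1 S) (u, 0) = Quot.mk (Cong L 1 S) (v, 0)) ↔
          φ (Quot.mk (Cong L 1 S) (u, 0)) = φ (Quot.mk (Cong L 1 S) (v, 0)) :=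
        φ.injective.eq_iff.symm
      have h4 : (φ (Quot.mk (Cong L 1 S) (u, 0)) = φ (Quot.mk (Cong L 1 S) (v, 0))) ↔
          Cong L 1 S' (u ++ w0, x0) (v ++ w0, x0) := by
        rw [h1, h1]
        exact pres_mk_eq L 1 S'
      rw [h3, h4, hL.cong_iff]
      simp only [ev_append, add_sub_add_right_eq_sub]
    ext g
    constructor
    · intro hg
      obtain ⟨w, hw, -⟩ := hL.rep S hg
      have h3 := h2 w []
      rw [ev_nil, sub_zero, hw] at h3
      exact h3.1 hg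
    · intro hg
      obtain ⟨w, hw, -⟩ := hL.rep S' hg
      have h3 := h2 w []
      rw [ev_nil, sub_zero, hw] at h3
      exact h3.2 hg
  · intro h
    have h1 : ∀ s t : Term (Fin 1), Cong L 1 S s t ↔ Cong L 1 S' s t := by
      intro s t
      rw [hL.cong_iff, hL.cong_iff, h]
    refine ⟨Quot.congr (Equiv.refl _) h1, fun k a => ?_⟩
    induction a using Quot.ind with
    | mk s => rfl

/-- The words which act trivially. -/
def Kn (L : Set (Term ℕ × Term ℕ)) (S : Set ℕ) : Set ℕ :=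
  {x | ∃ u : List ℕ, x = encode u ∧ Cong L 1 S (u, 0) ([], 0)}

theorem GLaw.mem_Kn (hL : GLaw G ν L) (S : Set ℕ) (u : List ℕ) :
    encode u ∈ Kn L S ↔ ev ν u ∈ HH ν S := by
  constructor
  · rintro ⟨v, h1, h2⟩
    rw [Encodable.encode_injective h1]
    rw [hL.cong_iff] at h2
    simpa [ev_nil] using h2
  · intro h
    refine ⟨u, rfl, ?_⟩
    rw [hL.cong_iff]
    simpa [ev_nil] using h

theorem GLaw.Kn_sub (hL : GLaw G ν L) {S S' : Set ℕ} : Kn L S ⊆ Kn L S' ↔ HH ν S ≤ HH ν S' := by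
  constructor
  · intro h g hg
    obtain ⟨w, rfl, -⟩ := hL.rep S hg
    rw [← hL.mem_Kn] at hg ⊢
    exact h hg
  · rintro h _ ⟨u, rfl, h1⟩
    rw [hL.mem_Kn]
    apply h
    rw [← hL.mem_Kn]
    exact ⟨u, rfl, h1⟩

theorem GLaw.Kn_eq (hL : GLaw G ν L) {S S' : Set ℕ} : Kn L S = Kn L S' ↔ HH ν S = HH ν S' := by
  rw [Set.Subset.antisymm_iff, hL.Kn_sub, hL.Kn_sub, le_antisymm_iff]

theorem exists_idx (hre : REPred fun p : Term ℕ × Term ℕ => p ∈ L) :
    ∃ f : ℕ → ℕ, Computable f ∧ ∀ e, W (f e) = Kn L (W e) := by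
  refine smn_idx (P := fun e x => x ∈ Kn L (W e)) ?_
  refine RE.ex (p := fun (p : ℕ × ℕ) (u : List ℕ) => p.2 = encode u ∧
    Cong L 1 (W p.1) (u, 0) ([], 0)) (RE.and (RE.eq (by fun_prop) (by fun_prop)) ?_)
  exact RE.comp (re_Cong (n := 1) hre) (f := fun x : (ℕ × ℕ) × List ℕ =>
    (x.1.1, ((x.2, (0 : Fin 1)), (([] : List ℕ), (0 : Fin 1))))) (by fun_prop)

/-- A reduction between the isomorphism relations is monotone on the subgroups. -/
theorem mono_red {G' : Type} [AddCommGroup G'] {ν' : ℕ → G'} {L' : Set (Term ℕ × Term ℕ)}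
    (hL : GLaw G ν L) (hL' : GLaw G' ν' L') (hre' : REPred fun p : Term ℕ × Term ℕ => p ∈ L')
    (hred : CRed (IsoRel L 1) (IsoRel L' 1)) :
    ∃ f : ℕ → ℕ, (∀ i j, HH ν (W i) = HH ν (W j) ↔ HH ν' (W (f i)) = HH ν' (W (f j))) ∧
      ∀ i j, W i ⊆ W j → HH ν' (W (f i)) ≤ HH ν' (W (f j)) := by
  obtain ⟨f, hf, hfr⟩ := hred
  obtain ⟨g, hg, hgW⟩ := exists_idx hre'
  have h1 : ∀ i j, HH ν (W i) = HH ν (W j) ↔ HH ν' (W (f i)) = HH ν' (W (f j)) := by
    intro i j
    have := hfr i j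
    unfold IsoRel at this
    rwa [hL.iso_iff, hL'.iso_iff] at this
  refine ⟨f, h1, fun i j hij => ?_⟩
  have h2 := mono_of_ext (h := fun e => g (f e)) (hg.comp hf) (fun a b hab => by
    show W (g (f a)) = W (g (f b))
    rw [hgW, hgW, hL'.Kn_eq, ← h1, hab]) hij
  rw [hgW, hgW, hL'.Kn_sub] at h2
  exact h2

end Pool.Agent.X235.Alg
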