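import Pool.Agent.X235.Alg.Two

set_option autoImplicit false

/-!
Incomparability of the two isomorphism relations.
-/

namespace Pool.Agent.X235.Alg

open Encodable Nat.Partrec Pool.Agent.Helper446

theorem re_LZ : ComputablePred fun p : Term ℕ × Term ℕ => p ∈ LZ := by
  have h1 : ComputablePred fun p : Term ℕ × Term ℕ => p = (([0, 1], 0), ([], 0)) :=
    RE.cp_eq (by fun_prop) (Computable.const _)
  have h2 : ComputablePred fun p : Term ℕ × Term ℕ => p = (([1, 0], 0), ([], 0)) :=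
    RE.cp_eq (by fun_prop) (Computable.const _)
  have h3 : ComputablePred fun p : Term ℕ × Term ℕ =>
      p = (([(p.1.1[0]?).getD 0 - 2 + 2], 0), ([], 0)) := by
    refine RE.cp_eq (by fun_prop) ?_
    have h4 : Computable fun p : Term ℕ × Term ℕ => (p.1.1[0]?).getD 0 - 2 + 2 := by
      have : Computable fun p : Term ℕ × Term ℕ => (p.1.1[0]?).getD 0 :=
        Primrec.option_getD.to_comp.comp (by fun_prop) (Computable.const 0)
      fun_prop
    have h5 : Computable fun p : Term ℕ × Term ℕ => [(p.1.1[0]?).getD 0 - 2 + 2] :=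
      Computable.list_cons.comp h4 (Computable.const [])
    exact (h5.pair (Computable.const 0)).pair (Computable.const _)
  refine RE.cp_of_re ?_ ?_
  · refine (RE.or h1.to_re (RE.or h2.to_re h3.to_re)).of_eq fun p => ?_
    constructor
    · rintro (h | h | h)
      · exact Or.inl h
      · exact Or.inr (Or.inl h)
      · exact Or.inr (Or.inr ⟨_, h⟩)
    · rintro (h | h | ⟨k, h⟩)
      · exact Or.inl h
      · exact Or.inr (Or.inl h)
      · refine Or.inr (Or.inr ?_)
        rw [h]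
        simp
  · refine (RE.and h1.not.to_re (RE.and h2.not.to_re h3.not.to_re)).of_eq fun p => ?_
    constructor
    · rintro ⟨h1, h2, h3⟩ (h | h | ⟨k, h⟩)
      · exact h1 h
      · exact h2 h
      · apply h3
        rw [h]
        simp
    · intro h
      refine ⟨fun h1 => h (Or.inl h1), fun h1 => h (Or.inr (Or.inl h1)),
        fun h1 => h (Or.inr (Or.inr ⟨_, h1⟩))⟩

theorem re_LP : ComputablePred fun p : Term ℕ × Term ℕ => p ∈ LP := by
  have h1 : ComputablePred fun p : Term ℕ × Term ℕ => p = (([0], 0), ([], 0)) :=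
    RE.cp_eq (by fun_prop) (Computable.const _)
  have h3 : ComputablePred fun p : Term ℕ × Term ℕ =>
      p = (([(p.2.1[0]?).getD 0 + 1, (p.2.1[0]?).getD 0 + 1], 0), ([(p.2.1[0]?).getD 0], 0)) := by
    refine RE.cp_eq (by fun_prop) ?_
    have h4 : Computable fun p : Term ℕ × Term ℕ => (p.2.1[0]?).getD 0 :=
      Primrec.option_getD.to_comp.comp (by fun_prop) (Computable.const 0)
    have h4' : Computable fun p : Term ℕ × Term ℕ => (p.2.1[0]?).getD 0 + 1 :=
      Computable.succ.comp h4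
    have h5 : Computable fun p : Term ℕ × Term ℕ => [(p.2.1[0]?).getD 0] :=
      Computable.list_cons.comp h4 (Computable.const [])
    have h6 : Computable fun p : Term ℕ × Term ℕ =>
        [(p.2.1[0]?).getD 0 + 1, (p.2.1[0]?).getD 0 + 1] :=
      Computable.list_cons.comp h4' (Computable.list_cons.comp h4' (Computable.const []))
    exact (h6.pair (Computable.const 0)).pair (h5.pair (Computable.const 0))
  refine RE.cp_of_re ?_ ?_
  · refine (RE.or h1.to_re h3.to_re).of_eq fun p => ?_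
    constructor
    · rintro (h | h)
      · exact Or.inl h
      · exact Or.inr ⟨_, h⟩
    · rintro (h | ⟨k, h⟩)
      · exact Or.inl h
      · refine Or.inr ?_
        rw [h]
        simp
  · refine (RE.and h1.not.to_re h3.not.to_re).of_eq fun p => ?_
    constructor
    · rintro ⟨h1, h3⟩ (h | ⟨k, h⟩)
      · exact h1 h
      · apply h3
        rw [h]
        simp
    · intro h
      refine ⟨fun h1 => h (Or.inl h1), fun h1 => h (Or.inr ⟨_, h1⟩)⟩

/-- An index. -/
theorem exists_W {P : ℕ → Prop} (h : REPred P) : ∃ e, W e = {x | P x} := by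
  obtain ⟨f, -, hf⟩ := smn_idx (P := fun _ x => P x)
    (RE.comp h (f := fun p : ℕ × ℕ => p.2) (by fun_prop))
  exact ⟨f 0, hf 0⟩

/-- Equations `f_0^{2^k} x ≈ x` for `k ≥ m`. -/
def UZ (m : ℕ) : Set ℕ := {x | ∃ k : ℕ, m ≤ k ∧
  x = encode (((List.replicate (2 ^ k) 0, 0), ([], 0)) : Term (Fin 1) × Term (Fin 1))}

/-- Equations `f_k x ≈ x` for `k ≤ m`. -/
def UP (m : ℕ) : Set ℕ := {x | ∃ k : ℕ, k ≤ m ∧
  x = encode ((([k], 0), ([], 0)) : Term (Fin 1) × Term (Fin 1))}

theorem ev_rep {G : Type} [AddCommGroup G] (ν : ℕ → G) (c k : ℕ) :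
    ev ν (List.replicate c k) = c • ν k := by
  unfold ev; simp

theorem mem_UZ (m : ℕ) : (2 ^ m : ℤ) ∈ HH nuZ (UZ m) := by
  refine AddSubgroup.subset_closure ⟨(List.replicate (2 ^ m) 0, 0), ([], 0), ⟨m, le_rfl, rfl⟩, ?_⟩
  show (2 ^ m : ℤ) = ev nuZ (List.replicate (2 ^ m) 0) - ev nuZ []
  rw [ev_rep, ev_nil]
  simp [nuZ]

theorem not_mem_UZ (m : ℕ) : (2 ^ m : ℤ) ∉ HH nuZ (UZ (m + 1)) := by
  intro h
  have h1 : HH nuZ (UZ (m + 1)) ≤ AddSubgroup.zmultiples (2 ^ (m + 1) : ℤ) := by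
    refine (AddSubgroup.closure_le _).2 ?_
    rintro g ⟨u, v, ⟨k, hk, huv⟩, rfl⟩
    have h2 := Encodable.encode_injective huv
    rw [Prod.mk.injEq] at h2
    obtain ⟨rfl, rfl⟩ := h2
    rw [SetLike.mem_coe, Int.mem_zmultiples_iff]
    show (2 ^ (m + 1) : ℤ) ∣ ev nuZ (List.replicate (2 ^ k) 0) - ev nuZ []
    rw [ev_rep, ev_nil]
    simp only [nuZ, if_true, sub_zero, nsmul_eq_mul, mul_one]
    push_cast
    exact pow_dvd_pow 2 hk
  have h2 := h1 h
  rw [Int.mem_zmultiples_iff] at h2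
  have h3 : (2 ^ (m + 1) : ℤ) ≤ 2 ^ m := Int.le_of_dvd (by positivity) h2
  rw [pow_succ] at h3
  have h4 : (0 : ℤ) < 2 ^ m := by positivity
  omega

theorem mem_UP (m : ℕ) : nuP m ∈ HH nuP (UP m) := by
  refine AddSubgroup.subset_closure ⟨([m], 0), ([], 0), ⟨m, le_rfl, rfl⟩, ?_⟩
  show nuP m = ev nuP [m] - ev nuP []
  rw [ev_cons, ev_nil, add_zero, sub_zero]

theorem not_mem_UP (m : ℕ) : nuP (m + 1) ∉ HH nuP (UP m) := by
  intro h
  have h1 : HH nuP (UP m) ≤ (nsmulAddMonoidHom (α := AddCircle (1 : ℚ)) (2 ^ m)).ker := by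
    refine (AddSubgroup.closure_le _).2 ?_
    rintro g ⟨u, v, ⟨k, hk, huv⟩, rfl⟩
    have h2 := Encodable.encode_injective huv
    rw [Prod.mk.injEq] at h2
    obtain ⟨rfl, rfl⟩ := h2
    rw [SetLike.mem_coe, AddMonoidHom.mem_ker]
    show (2 ^ m) • (ev nuP [k] - ev nuP []) = 0
    rw [ev_cons, ev_nil, add_zero, sub_zero, ← addOrderOf_dvd_iff_nsmul_eq_zero, nuP_order]
    exact pow_dvd_pow 2 hk
  have h2 := h1 h
  rw [AddMonoidHom.mem_ker] at h2
  have h3 : (2 ^ m) • nuP (m + 1) = 0 := h2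
  rw [← addOrderOf_dvd_iff_nsmul_eq_zero, nuP_order] at h3
  have h4 := Nat.le_of_dvd (by positivity) h3
  rw [pow_succ] at h4
  have h5 : 0 < 2 ^ m := by positivity
  omega

theorem re_UZ (m : ℕ) : REPred fun x => x ∈ UZ m := by
  have hc : Computable fun k : ℕ =>
      encode (((List.replicate (2 ^ k) 0, 0), ([], 0)) : Term (Fin 1) × Term (Fin 1)) := by
    refine Computable.encode.comp (((?_ : Computable _).pair (Computable.const 0)).pair
      (Computable.const _))
    have h1 : Primrec fun c : ℕ => List.replicate c (0 : ℕ) := by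
      refine ((Primrec.nat_rec₁ ([] : List ℕ) (f := fun _ l => 0 :: l)
        (Primrec.list_cons.comp (Primrec.const 0) Primrec.snd))).of_eq fun c => ?_
      induction c with
      | zero => rfl
      | succ c ih => rw [List.replicate_succ, ← ih]
    have h2 : Primrec fun k : ℕ => 2 ^ k := by
      refine (Primrec.nat_rec₁ 1 (f := fun _ l => l * 2)
        (Primrec.nat_mul.comp Primrec.snd (Primrec.const 2))).of_eq fun c => ?_
      induction c with
      | zero => rfl
      | succ c ih => rw [pow_succ, ← ih]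
    exact h1.to_comp.comp h2.to_comp
  refine RE.ex (p := fun (x k : ℕ) => m ≤ k ∧
    x = encode (((List.replicate (2 ^ k) 0, 0), ([], 0)) : Term (Fin 1) × Term (Fin 1))) ?_
  exact RE.and (RE.le (by fun_prop) (by fun_prop))
    (RE.eq (by fun_prop) (hc.comp Computable.snd))

theorem re_UP (m : ℕ) : REPred fun x => x ∈ UP m := by
  have hc : Computable fun k : ℕ =>
      encode ((([k], 0), ([], 0)) : Term (Fin 1) × Term (Fin 1)) := by
    refine Computable.encode.comp (((?_ : Computable _).pair (Computable.const 0)).pair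
      (Computable.const _))
    exact Computable.list_cons.comp Computable.id (Computable.const [])
  refine RE.ex (p := fun (x k : ℕ) => k ≤ m ∧
    x = encode ((([k], 0), ([], 0)) : Term (Fin 1) × Term (Fin 1))) ?_
  exact RE.and (RE.le (by fun_prop) (by fun_prop))
    (RE.eq (by fun_prop) (hc.comp Computable.snd))

/-- The rotations which belong to a subgroup. -/
def JJ (S : Set ℕ) : Set ℕ := {j | nuP j ∈ HH nuP S}

theorem JJ_down {S : Set ℕ} {i j : ℕ} (hij : i ≤ j) (hj : j ∈ JJ S) : i ∈ JJ S := by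
  show nuP i ∈ HH nuP S
  rw [nuP_le hij]
  exact AddSubgroup.nsmul_mem _ hj _

theorem rep_mem {S : Set ℕ} {c N : ℕ} (h : c • nuP N ∈ HH nuP S) (h0 : c • nuP N ≠ 0) :
    ∃ j ∈ JJ S, ∃ q : ℕ, c • nuP N = q • nuP j := by
  have hc : c ≠ 0 := by rintro rfl; exact h0 (zero_smul _ _)
  obtain ⟨a, q, hq, rfl⟩ := Nat.exists_eq_two_pow_mul_odd hc
  have haN : a < N := by
    by_contra hcon
    push Not at hcon
    apply h0
    rw [← addOrderOf_dvd_iff_nsmul_eq_zero, nuP_order]
    exact (pow_dvd_pow 2 hcon).mul_right q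
  have e1 : (2 ^ a * q) • nuP N = q • nuP (N - a) := by
    rw [mul_comm, mul_smul]
    congr 1
    have := nuP_smul (N - a) a
    rwa [show N - a + a = N by omega] at this
  rw [e1] at h
  refine ⟨N - a, ?_, q, e1⟩
  have hcop : Nat.Coprime q (2 ^ (N - a)) := by
    exact (Nat.Coprime.pow_right _ (Nat.coprime_two_right.2 hq))
  obtain ⟨r, -, hr⟩ := Nat.exists_mul_mod_eq_one_of_coprime hcop
    (Nat.one_lt_two_pow (by omega))
  show nuP (N - a) ∈ HH nuP S
  have e2 : nuP (N - a) = r • (q • nuP (N - a)) := by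
    rw [← mul_smul, mul_comm r q]
    have h3 : q * r ≡ 1 [MOD 2 ^ (N - a)] := by
      show q * r % _ = 1 % _
      rw [hr, Nat.mod_eq_of_lt (Nat.one_lt_two_pow (by omega))]
    have h4 : (q * r) • nuP (N - a) = 1 • nuP (N - a) := by
      refine nsmul_eq_nsmul_iff_modEq.2 ?_
      rw [nuP_order]; exact h3
    rw [h4, one_smul]
  rw [e2]
  exact AddSubgroup.nsmul_mem _ h _

theorem HH_le_of_JJ {S S' : Set ℕ} (h : JJ S ⊆ JJ S') : HH nuP S ≤ HH nuP S' := by
  intro g hg
  obtain ⟨w, rfl, -⟩ := glawP.rep S hg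
  obtain ⟨N, hN⟩ := exists_bd w
  obtain ⟨c, hc, -⟩ := wordP (S := ∅) w N hN
  rw [hc] at hg ⊢
  by_cases h0 : c • nuP N = 0
  · rw [h0]; exact AddSubgroup.zero_mem _
  · obtain ⟨j, hj, q, hq⟩ := rep_mem hg h0
    rw [hq]
    exact AddSubgroup.nsmul_mem _ (h hj) _

theorem JJ_mono {S S' : Set ℕ} (h : HH nuP S ≤ HH nuP S') : JJ S ⊆ JJ S' := fun _ hj => h hj

/-- The subgroups of the Pruefer group satisfy the descending chain condition. -/
theorem no_desc (S : ℕ → Set ℕ) (h1 : ∀ m, HH nuP (S (m + 1)) ≤ HH nuP (S m))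
    (h2 : ∀ m, HH nuP (S (m + 1)) ≠ HH nuP (S m)) : False := by
  have h3 : ∀ m, JJ (S (m + 1)) ⊂ JJ (S m) := by
    intro m
    refine (JJ_mono (h1 m)).ssubset_of_ne fun h => h2 m ?_
    exact le_antisymm (h1 m) (HH_le_of_JJ h.ge)
  obtain ⟨j, -, hj⟩ := Set.exists_of_ssubset (h3 0)
  have hfin : ∀ m, (JJ (S (m + 1))).Finite := by
    intro m
    have hsub : JJ (S (m + 1)) ⊆ JJ (S 1) := by
      induction m with
      | zero => exact subset_rfl
      | succ m ih => exact (h3 (m + 1)).subset.trans ih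
    refine (Set.finite_lt_nat j).subset fun i hi => ?_
    show i < j
    by_contra hcon
    push Not at hcon
    exact hj (JJ_down hcon (hsub hi))
  have hcard : ∀ m, (JJ (S (m + 1))).ncard + m ≤ (JJ (S 1)).ncard := by
    intro m
    induction m with
    | zero => exact le_rfl
    | succ m ih =>
      have := Set.ncard_lt_ncard (h3 (m + 1)) (hfin m)
      omega
  have := hcard ((JJ (S 1)).ncard + 1)
  omega

theorem not_red_ZP : ¬ CRed (IsoRel LZ 1) (IsoRel LP 1) := by
  intro h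
  obtain ⟨f, h1, h2⟩ := mono_red glawZ glawP re_LP.to_re h
  choose i hi using fun m => exists_W (re_UZ m)
  have hi' : ∀ m, W (i m) = UZ m := hi
  refine no_desc (fun m => W (f (i m))) (fun m => h2 _ _ ?_) (fun m hm => ?_)
  · rw [hi', hi']
    rintro x ⟨k, hk, rfl⟩
    exact ⟨k, by omega, rfl⟩
  · have h3 := (h1 _ _).2 hm
    rw [hi', hi'] at h3
    exact not_mem_UZ m (h3 ▸ mem_UZ m)

theorem not_red_PZ : ¬ CRed (IsoRel LP 1) (IsoRel LZ 1) := by
  intro h
  obtain ⟨f, h1, h2⟩ := mono_red glawP glawZ re_LZ.to_re h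
  choose i hi using fun m => exists_W (re_UP m)
  have hi' : ∀ m, W (i m) = UP m := hi
  let K : ℕ → Submodule ℤ ℤ := fun m => AddSubgroup.toIntSubmodule (HH nuZ (W (f (i m))))
  have hK : StrictMono K := by
    refine strictMono_nat_of_lt_succ fun m => lt_of_le_of_ne ?_ fun hm => ?_
    · refine AddSubgroup.toIntSubmodule.monotone (h2 _ _ ?_)
      rw [hi', hi']
      rintro x ⟨k, hk, rfl⟩
      exact ⟨k, by omega, rfl⟩
    · have h3 := (h1 _ _).2 (AddSubgroup.toIntSubmodule.injective hm)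
      rw [hi', hi'] at h3
      exact not_mem_UP m (h3 ▸ mem_UP (m + 1))
  have hwf : WellFounded ((· > ·) : Submodule ℤ ℤ → Submodule ℤ ℤ → Prop) := wellFounded_gt
  exact (RelEmbedding.not_wellFounded
    (⟨⟨K, hK.injective⟩, fun {a b} => hK.lt_iff_lt⟩ :
      ((· > ·) : ℕ → ℕ → Prop) ↪r ((· > ·) : Submodule ℤ ℤ → Submodule ℤ ℤ → Prop))) hwf

end Pool.Agent.X235.Alg
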