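import Pool.Agent.X235.Alg.Ce

set_option autoImplicit false

/-!
The variety of unary algebras all of whose operations are constant: isomorphism of `n`-generated
c.e. presented members is equivalent to equality of c.e. sets.
-/

namespace Pool.Agent.X235.Alg

open Encodable Nat.Partrec Pool.Agent.Helper446

/-- The laws `f_k(x_0) ≈ f_k(x_1)`. -/
def L0 : Set (Term ℕ × Term ℕ) := {p | ∃ k : ℕ, p = (([k], 0), ([k], 1))}

theorem L0_nontrivial : ∃ A : UAlg, A.Sat L0 ∧ ∃ a b : A.carrier, a ≠ b := by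
  refine ⟨⟨Bool, fun _ _ => true⟩, ?_, (true : Bool), (false : Bool), by decide⟩
  rintro _ ⟨k, rfl⟩ v
  rfl

variable {n : ℕ} {S S' : Set ℕ}

theorem cst (S : Set ℕ) (k : ℕ) (s t : Term (Fin n)) :
    Cong L0 n S (k :: s.1, s.2) (k :: t.1, t.2) := by
  have h := Cong.law (n := n) (S := S) (L := L0) (([k], 0), ([k], 1)) ⟨k, rfl⟩
    (fun i => if i = 0 then s else t)
  exact h

/-- A single step. -/
def St (S : Set ℕ) (s t : Term (Fin n)) : Prop :=
  (∃ k, s.1[0]? = some k ∧ t.1[0]? = some k) ∨ encode (s, t) ∈ S ∨ encode (t, s) ∈ S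

theorem St.symm {s t : Term (Fin n)} (h : St S s t) : St S t s := by
  rcases h with ⟨k, h1, h2⟩ | h | h
  · exact Or.inl ⟨k, h2, h1⟩
  · exact Or.inr (Or.inr h)
  · exact Or.inr (Or.inl h)

theorem St.cong {s t : Term (Fin n)} (h : St S s t) : Cong L0 n S s t := by
  rcases h with ⟨k, h1, h2⟩ | h | h
  · obtain ⟨s1, s2⟩ := s
    obtain ⟨t1, t2⟩ := t
    rcases s1 with _ | ⟨a, s1⟩
    · simp at h1
    · rcases t1 with _ | ⟨b, t1⟩
      · simp at h2
      · simp only [List.getElem?_cons_zero, Option.some.injEq] at h1 h2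
        subst h1 h2
        exact cst S _ (s1, s2) (t1, t2)
  · exact Cong.eqn _ _ h
  · exact Cong.symm _ _ (Cong.eqn _ _ h)

theorem cong_iff (s t : Term (Fin n)) :
    Cong L0 n S s t ↔ Relation.ReflTransGen (St S) s t := by
  constructor
  · intro h
    induction h with
    | law p hp v =>
      obtain ⟨k, rfl⟩ := hp
      exact Relation.ReflTransGen.single (Or.inl ⟨k, rfl, rfl⟩)
    | eqn s t h => exact Relation.ReflTransGen.single (Or.inr (Or.inl h))
    | refl s => exact Relation.ReflTransGen.refl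
    | symm s t _ ih =>
      clear * - ih
      induction ih with
      | refl => exact Relation.ReflTransGen.refl
      | tail _ h1 ih2 => exact Relation.ReflTransGen.head h1.symm ih2
    | trans s t u _ _ ih1 ih2 => exact ih1.trans ih2
    | app k s t _ _ => exact Relation.ReflTransGen.single (Or.inl ⟨k, rfl, rfl⟩)
  · intro h
    induction h with
    | refl => exact Cong.refl _
    | tail _ h1 ih => exact Cong.trans _ _ _ ih h1.cong

theorem chain_iff (s t : Term (Fin n)) :
    Relation.ReflTransGen (St S) s t ↔ ∃ x : List (Term (Fin n)) × ℕ, x.1[0]? = some s ∧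
      x.1[x.2]? = some t ∧ ∀ i < x.2, ∃ u : Term (Fin n) × Term (Fin n),
        x.1[i]? = some u.1 ∧ x.1[i + 1]? = some u.2 ∧ St S u.1 u.2 := by
  constructor
  · intro h
    induction h with
    | refl => exact ⟨([s], 0), rfl, rfl, fun i hi => absurd hi (by simp)⟩
    | @tail b c _ h1 ih =>
      obtain ⟨⟨l, m⟩, h2, h3, h4⟩ := ih
      simp only at h2 h3 h4
      have hlen : m < l.length := by
        by_contra hcon
        rw [List.getElem?_eq_none (by omega)] at h3
        cases h3
      have hget : ∀ y, y ≤ m → (l.take (m + 1) ++ [c])[y]? = l[y]? := by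
        intro y hy
        rw [List.getElem?_append_left (by rw [List.length_take]; omega),
          List.getElem?_take_of_lt (by omega)]
      have hget2 : (l.take (m + 1) ++ [c])[m + 1]? = some c := by
        rw [List.getElem?_append_right (by rw [List.length_take]; omega)]
        have : m + 1 - (l.take (m + 1)).length = 0 := by rw [List.length_take]; omega
        rw [this]; rfl
      refine ⟨(l.take (m + 1) ++ [c], m + 1), ?_, hget2, ?_⟩
      · simp only
        rw [hget 0 (by omega)]; exact h2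
      · intro i hi
        simp only at hi ⊢
        rcases Nat.lt_succ_iff_lt_or_eq.1 hi with hi | rfl
        · obtain ⟨u, hu1, hu2, hu3⟩ := h4 i hi
          exact ⟨u, by rw [hget i (by omega)]; exact hu1,
            by rw [hget (i + 1) (by omega)]; exact hu2, hu3⟩
        · exact ⟨(b, c), by rw [hget i le_rfl]; exact h3, hget2, h1⟩
  · rintro ⟨⟨l, m⟩, h1, h2, h3⟩
    simp only at h1 h2 h3
    induction m generalizing t with
    | zero =>
      rw [h1] at h2
      cases h2
      exact Relation.ReflTransGen.refl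
    | succ m ih =>
      obtain ⟨u, hu1, hu2, hu3⟩ := h3 m (by omega)
      have h4 := ih u.1 hu1 (fun i hi => h3 i (by omega))
      rw [hu2] at h2
      cases h2
      exact h4.tail hu3

theorem re_St : REPred fun x : ℕ × (Term (Fin n) × Term (Fin n)) => St (W x.1) x.2.1 x.2.2 := by
  refine RE.or ?_ (RE.or ?_ ?_)
  · refine RE.ex (p := fun (x : ℕ × (Term (Fin n) × Term (Fin n))) (k : ℕ) =>
      x.2.1.1[0]? = some k ∧ x.2.2.1[0]? = some k) ?_
    exact RE.and (RE.eq (by fun_prop) (by fun_prop)) (RE.eq (by fun_prop) (by fun_prop))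
  · exact re_W' (f := fun x : ℕ × (Term (Fin n) × Term (Fin n)) => x.1)
      (g := fun x => encode (x.2.1, x.2.2)) (by fun_prop) (by fun_prop)
  · exact re_W' (f := fun x : ℕ × (Term (Fin n) × Term (Fin n)) => x.1)
      (g := fun x => encode (x.2.2, x.2.1)) (by fun_prop) (by fun_prop)

theorem re_cong : REPred fun x : ℕ × (Term (Fin n) × Term (Fin n)) =>
    Cong L0 n (W x.1) x.2.1 x.2.2 := by
  have h : REPred fun a : ℕ × (Term (Fin n) × Term (Fin n)) =>
      ∃ x : List (Term (Fin n)) × ℕ, x.1[0]? = some a.2.1 ∧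
      x.1[x.2]? = some a.2.2 ∧ ∀ i < x.2, ∃ u : Term (Fin n) × Term (Fin n),
        x.1[i]? = some u.1 ∧ x.1[i + 1]? = some u.2 ∧ St (W a.1) u.1 u.2 := by
    refine RE.ex (p := fun (a : ℕ × (Term (Fin n) × Term (Fin n)))
      (x : List (Term (Fin n)) × ℕ) => x.1[0]? = some a.2.1 ∧
      x.1[x.2]? = some a.2.2 ∧ ∀ i < x.2, ∃ u : Term (Fin n) × Term (Fin n),
        x.1[i]? = some u.1 ∧ x.1[i + 1]? = some u.2 ∧ St (W a.1) u.1 u.2) ?_
    refine RE.and (RE.eq (by fun_prop) (by fun_prop)) (RE.and (RE.eq (by fun_prop) (by fun_prop))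
      ?_)
    refine RE.all_lt (p := fun (a : (ℕ × (Term (Fin n) × Term (Fin n))) ×
      (List (Term (Fin n)) × ℕ)) (i : ℕ) => ∃ u : Term (Fin n) × Term (Fin n),
        a.2.1[i]? = some u.1 ∧ a.2.1[i + 1]? = some u.2 ∧ St (W a.1.1) u.1 u.2) ?_ (by fun_prop)
    refine RE.ex (p := fun (a : ((ℕ × (Term (Fin n) × Term (Fin n))) ×
      (List (Term (Fin n)) × ℕ)) × ℕ) (u : Term (Fin n) × Term (Fin n)) =>
        a.1.2.1[a.2]? = some u.1 ∧ a.1.2.1[a.2 + 1]? = some u.2 ∧ St (W a.1.1.1) u.1 u.2) ?_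
    refine RE.and (RE.eq (by fun_prop) (by fun_prop)) (RE.and (RE.eq (by fun_prop) (by fun_prop))
      ?_)
    exact RE.comp re_St (f := fun a : (((ℕ × (Term (Fin n) × Term (Fin n))) ×
      (List (Term (Fin n)) × ℕ)) × ℕ) × (Term (Fin n) × Term (Fin n)) =>
        (a.1.1.1.1, (a.2.1, a.2.2))) (by fun_prop)
  refine h.of_eq fun a => ?_
  rw [cong_iff, chain_iff]

theorem re_cong' {α : Type} [Primcodable α] {e : α → ℕ} {s t : α → Term (Fin n)}
    (he : Computable e) (hs : Computable s) (ht : Computable t) :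
    REPred fun a => Cong L0 n (W (e a)) (s a) (t a) :=
  RE.comp re_cong (f := fun a => (e a, (s a, t a))) (he.pair (hs.pair ht))

/-- Invariants of the congruence. -/
theorem cong_inv {β : Type} (h : Term (Fin n) → β) (g : ℕ → β)
    (h1 : ∀ k (s : Term (Fin n)), h (k :: s.1, s.2) = g k)
    (h2 : ∀ s t, encode (s, t) ∈ S → h s = h t) {s t : Term (Fin n)} (hst : Cong L0 n S s t) :
    h s = h t := by
  induction hst with
  | law p hp v =>
    obtain ⟨k, rfl⟩ := hp
    have e1 := h1 k (v 0)
    have e2 := h1 k (v 1)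
    exact e1.trans e2.symm
  | eqn s t h => exact h2 s t h
  | refl s => rfl
  | symm s t _ ih => exact ih.symm
  | trans s t u _ _ ih1 ih2 => exact ih1.trans ih2
  | app k s t _ _ => rw [h1, h1]

theorem cong_equivalence (L : Set (Term ℕ × Term ℕ)) (n : ℕ) (S : Set ℕ) :
    Equivalence (Cong L n S) :=
  ⟨Cong.refl, fun h => Cong.symm _ _ h, fun h1 h2 => Cong.trans _ _ _ h1 h2⟩

/-- The class of a term. -/
def mk (S : Set ℕ) (s : Term (Fin n)) : (pres L0 n S).carrier := Quot.mk (Cong L0 n S) s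

/-- A representative. -/
noncomputable def out (a : (pres L0 n S).carrier) : Term (Fin n) := Quot.out a

theorem mk_out (a : (pres L0 n S).carrier) : mk S (out a) = a := Quot.out_eq a

theorem mk_surj (a : (pres L0 n S).carrier) : ∃ s, a = mk S s := ⟨out a, (mk_out a).symm⟩

theorem mk_eq {s t : Term (Fin n)} : mk S s = mk S t ↔ Cong L0 n S s t := by
  show (Quot.mk (Cong L0 n S) s : Quot (Cong L0 n S)) = Quot.mk (Cong L0 n S) t ↔ _
  rw [Quot.eq, (cong_equivalence _ _ _).eqvGen_iff]

section iso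

variable (hn : 0 < n)

/-- The constant `f_k(x_0)`. -/
def ct (hn : 0 < n) (k : ℕ) : Term (Fin n) := ([k], ⟨0, hn⟩)

theorem cong_ct (S : Set ℕ) (k : ℕ) (s : Term (Fin n)) :
    Cong L0 n S (k :: s.1, s.2) (ct hn k) := cst S k s ([], ⟨0, hn⟩)

/-- The elements that are not values of the operations. -/
def NC (n : ℕ) (S : Set ℕ) : Set (pres L0 n S).carrier :=
  {a | ∀ k b, a ≠ (pres L0 n S).op k b}

theorem op_mk (k : ℕ) (s : Term (Fin n)) :
    (pres L0 n S).op k (mk S s) = mk S (k :: s.1, s.2) := rfl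

theorem op_eq (k : ℕ) (b : (pres L0 n S).carrier) :
    (pres L0 n S).op k b = mk S (ct hn k) := by
  obtain ⟨s, rfl⟩ := mk_surj b
  rw [op_mk]
  exact mk_eq.2 (cong_ct hn S k s)

theorem mem_NC {a : (pres L0 n S).carrier} : a ∈ NC n S ↔ ∀ k, a ≠ mk S (ct hn k) := by
  constructor
  · intro h k
    rw [← op_eq hn k a]
    exact h k a
  · intro h k b
    rw [op_eq hn k b]
    exact h k

theorem NC_rep {a : (pres L0 n S).carrier} (ha : a ∈ NC n S) : ∃ i, a = mk S ([], i) := by
  obtain ⟨⟨w, i⟩, rfl⟩ := mk_surj a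
  rcases w with _ | ⟨k, w⟩
  · exact ⟨i, rfl⟩
  · exact absurd rfl (ha k (mk S (w, i)))

theorem NC_finite (n : ℕ) (S : Set ℕ) : (NC n S).Finite := by
  refine (Set.finite_range (fun i : Fin n => mk S ([], i))).subset ?_
  intro a ha
  obtain ⟨i, rfl⟩ := NC_rep ha
  exact ⟨i, rfl⟩

/-- The c.e. form of the count of elements which are not values. -/
def Bd (hn : 0 < n) (S : Set ℕ) (r : ℕ) : Prop :=
  ∃ l : List (Term (Fin n)), l.length ≤ r ∧ ∀ i ∈ List.finRange n,
    (∃ k, Cong L0 n S ([], i) (ct hn k)) ∨ ∃ t ∈ l, Cong L0 n S ([], i) t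

theorem Bd_iff (S : Set ℕ) (r : ℕ) : Bd hn S r ↔ (NC n S).ncard ≤ r := by
  classical
  constructor
  · rintro ⟨l, hl, h⟩
    have hsub : NC n S ⊆ (((l.map (mk S)).toFinset : Finset _) : Set _) := by
      intro a ha
      rw [Finset.mem_coe, List.mem_toFinset, List.mem_map]
      have ha2 := (mem_NC hn).1 ha
      obtain ⟨i, rfl⟩ := NC_rep ha
      rcases h i (List.mem_finRange i) with ⟨k, hk⟩ | ⟨t, ht, hk⟩
      · exact absurd (mk_eq.2 hk) (ha2 k)
      · exact ⟨t, ht, (mk_eq.2 hk).symm⟩
    have h1 := Set.ncard_le_ncard hsub (Finset.finite_toSet _)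
    rw [Set.ncard_coe_finset] at h1
    have h2 := (l.map (mk S)).toFinset_card_le
    rw [List.length_map] at h2
    omega
  · intro h
    refine ⟨(NC_finite n S).toFinset.toList.map out, ?_, fun i _ => ?_⟩
    · rw [List.length_map, Finset.length_toList, ← Set.ncard_eq_toFinset_card _ (NC_finite n S)]
      exact h
    · by_cases hi : mk S ([], i) ∈ NC n S
      · right
        refine ⟨out (mk S ([], i)), ?_, ?_⟩
        · rw [List.mem_map]
          exact ⟨_, by rw [Finset.mem_toList, Set.Finite.mem_toFinset]; exact hi, rfl⟩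
        · rw [← mk_eq, mk_out]
      · left
        rw [mem_NC hn] at hi
        push Not at hi
        obtain ⟨k, hk⟩ := hi
        exact ⟨k, mk_eq.1 hk⟩

theorem iso_iff (S S' : Set ℕ) : Iso (pres L0 n S) (pres L0 n S') ↔
    (∀ k l, Cong L0 n S (ct hn k) (ct hn l) ↔ Cong L0 n S' (ct hn k) (ct hn l)) ∧
    (NC n S).ncard = (NC n S').ncard := by
  classical
  constructor
  · rintro ⟨φ, hφ⟩
    have h1 : ∀ k, φ (mk S (ct hn k)) = mk S' (ct hn k) := by
      intro k
      have h2 := hφ k (mk S ([], ⟨0, hn⟩))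
      rw [op_eq hn, op_eq hn] at h2
      exact h2
    constructor
    · intro k l
      rw [← mk_eq, ← mk_eq, ← h1 k, ← h1 l, φ.injective.eq_iff]
    · have h2 : φ '' NC n S = NC n S' := by
        ext b
        constructor
        · rintro ⟨a, ha, rfl⟩
          rw [mem_NC hn] at ha ⊢
          intro k h3
          rw [← h1 k] at h3
          exact ha k (φ.injective h3)
        · intro hb
          refine ⟨φ.symm b, ?_, by simp⟩
          rw [mem_NC hn] at hb ⊢
          intro k h3
          apply hb k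
          rw [← h1 k, ← h3]; simp
      rw [← h2, Set.ncard_image_of_injective _ φ.injective]
  · rintro ⟨h1, h2⟩
    have h3 : Nat.card (NC n S) = Nat.card (NC n S') := by
      rw [Nat.card_coe_set_eq, Nat.card_coe_set_eq, h2]
    have i1 := (NC_finite n S).to_subtype
    have i2 := (NC_finite n S').to_subtype
    obtain ⟨ψ⟩ : Nonempty (NC n S ≃ NC n S') := Finite.card_eq.1 h3
    have hex : ∀ a : (pres L0 n S).carrier, a ∉ NC n S → ∃ k, a = mk S (ct hn k) := by
      intro a ha
      rw [mem_NC hn] at ha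
      push Not at ha
      exact ha
    let F : (pres L0 n S).carrier → (pres L0 n S').carrier := fun a =>
      if h : a ∈ NC n S then (ψ ⟨a, h⟩ : (pres L0 n S').carrier)
      else mk S' (ct hn (Classical.choose (hex a h)))
    have hF1 : ∀ (a) (h : a ∈ NC n S), F a = ψ ⟨a, h⟩ := fun a h => dif_pos h
    have hnot : ∀ (T : Set ℕ) k, mk T (ct hn k) ∉ NC n T := by
      intro T k h
      exact (mem_NC hn).1 h k rfl
    have hF2 : ∀ k, F (mk S (ct hn k)) = mk S' (ct hn k) := by
      intro k
      have h5 : F (mk S (ct hn k)) = mk S' (ct hn (Classical.choose (hex _ (hnot S k)))) :=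
        dif_neg (hnot S k)
      rw [h5]
      have h4 := Classical.choose_spec (hex _ (hnot S k))
      exact mk_eq.2 ((h1 _ _).1 (mk_eq.1 h4.symm))
    have hFb : Function.Bijective F := by
      constructor
      · intro a b hab
        by_cases ha : a ∈ NC n S
        · by_cases hb : b ∈ NC n S
          · rw [hF1 a ha, hF1 b hb] at hab
            have := ψ.injective (Subtype.ext hab)
            exact congrArg Subtype.val this
          · obtain ⟨k, rfl⟩ := hex b hb
            rw [hF1 a ha, hF2] at hab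
            exact absurd (hab ▸ (ψ ⟨a, ha⟩).2) (hnot S' k)
        · obtain ⟨k, rfl⟩ := hex a ha
          by_cases hb : b ∈ NC n S
          · rw [hF1 b hb, hF2] at hab
            exact absurd (hab ▸ (ψ ⟨b, hb⟩).2) (hnot S' k)
          · obtain ⟨l, rfl⟩ := hex b hb
            rw [hF2, hF2] at hab
            exact mk_eq.2 ((h1 _ _).2 (mk_eq.1 hab))
      · intro b
        by_cases hb : b ∈ NC n S'
        · refine ⟨(ψ.symm ⟨b, hb⟩ : (pres L0 n S).carrier), ?_⟩
          rw [hF1 _ (ψ.symm ⟨b, hb⟩).2]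
          simp
        · rw [mem_NC hn] at hb
          push Not at hb
          obtain ⟨k, rfl⟩ := hb
          exact ⟨_, hF2 k⟩
    refine ⟨Equiv.ofBijective F hFb, fun k a => ?_⟩
    rw [op_eq hn, op_eq hn, Equiv.ofBijective_apply, hF2]

end iso

theorem iso_red_ceq (hn : 0 < n) : CRed (IsoRel L0 n) Ceq := by
  let P : ℕ → ℕ → Prop := fun e y =>
    (∃ p : ℕ × ℕ, y = 2 * Nat.pair p.1 p.2 ∧ Cong L0 n (W e) (ct hn p.1) (ct hn p.2)) ∨
    ∃ r, y = 2 * r + 1 ∧ Bd hn (W e) r
  have hP : REPred fun x : ℕ × ℕ => P x.1 x.2 := by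
    have hct : Computable fun k : ℕ => (ct hn k : Term (Fin n)) := by
      unfold ct
      fun_prop
    refine RE.or ?_ ?_
    · refine RE.ex (p := fun (x : ℕ × ℕ) (p : ℕ × ℕ) => x.2 = 2 * Nat.pair p.1 p.2 ∧
        Cong L0 n (W x.1) (ct hn p.1) (ct hn p.2)) ?_
      refine RE.and (RE.eq (by fun_prop) (by fun_prop)) (re_cong' (by fun_prop) ?_ ?_)
      · exact hct.comp (by fun_prop)
      · exact hct.comp (by fun_prop)
    · refine RE.ex (p := fun (x : ℕ × ℕ) (r : ℕ) => x.2 = 2 * r + 1 ∧ Bd hn (W x.1) r) ?_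
      refine RE.and (RE.eq (by fun_prop) (by fun_prop)) ?_
      refine RE.ex (p := fun (x : (ℕ × ℕ) × ℕ) (l : List (Term (Fin n))) => l.length ≤ x.2 ∧
        ∀ i ∈ List.finRange n, (∃ k, Cong L0 n (W x.1.1) ([], i) (ct hn k)) ∨
          ∃ t ∈ l, Cong L0 n (W x.1.1) ([], i) t) ?_
      refine RE.and (RE.le (by fun_prop) (by fun_prop)) ?_
      refine RE.all_mem (p := fun (x : ((ℕ × ℕ) × ℕ) × List (Term (Fin n))) (i : Fin n) =>
        (∃ k, Cong L0 n (W x.1.1.1) ([], i) (ct hn k)) ∨
          ∃ t ∈ x.2, Cong L0 n (W x.1.1.1) ([], i) t) ?_ (Computable.const _)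
      refine RE.or ?_ ?_
      · refine RE.ex (p := fun (x : (((ℕ × ℕ) × ℕ) × List (Term (Fin n))) × Fin n) (k : ℕ) =>
          Cong L0 n (W x.1.1.1.1) ([], x.2) (ct hn k)) ?_
        exact re_cong' (by fun_prop) (by fun_prop) (hct.comp (by fun_prop))
      · refine RE.ex_mem (p := fun (x : (((ℕ × ℕ) × ℕ) × List (Term (Fin n))) × Fin n)
          (t : Term (Fin n)) => Cong L0 n (W x.1.1.1.1) ([], x.2) t) ?_ (by fun_prop)
        exact re_cong' (by fun_prop) (by fun_prop) (by fun_prop)
  obtain ⟨f, hf, h⟩ := smn_idx hP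
  refine ⟨f, hf, fun x y => ?_⟩
  unfold IsoRel Ceq
  rw [iso_iff hn, h, h]
  constructor
  · rintro ⟨h1, h2⟩
    ext z
    show P x z ↔ P y z
    have h3 : ∀ r, Bd hn (W x) r ↔ Bd hn (W y) r := by
      intro r; rw [Bd_iff, Bd_iff, h2]
    simp only [P, h1, h3]
  · intro h1
    have h2 : ∀ z, P x z ↔ P y z := fun z => Set.ext_iff.1 h1 z
    have h3 : ∀ e k l, P e (2 * Nat.pair k l) ↔ Cong L0 n (W e) (ct hn k) (ct hn l) := by
      intro e k l
      constructor
      · rintro (⟨p, hp1, hp2⟩ | ⟨r, hr, -⟩)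
        · have h4 : Nat.pair k l = Nat.pair p.1 p.2 := by omega
          rw [Nat.pair_eq_pair] at h4
          rw [h4.1, h4.2]; exact hp2
        · omega
      · intro h4
        exact Or.inl ⟨(k, l), rfl, h4⟩
    have h4 : ∀ e r, P e (2 * r + 1) ↔ Bd hn (W e) r := by
      intro e r
      constructor
      · rintro (⟨p, hp1, hp2⟩ | ⟨r', hr, h⟩)
        · omega
        · have : r = r' := by omega
          rw [this]; exact h
      · intro h4
        exact Or.inr ⟨r, rfl, h4⟩
    constructor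
    · intro k l
      rw [← h3, ← h3, h2]
    · have h5 : ∀ r, (NC n (W x)).ncard ≤ r ↔ (NC n (W y)).ncard ≤ r := by
        intro r
        rw [← Bd_iff hn, ← Bd_iff hn, ← h4, ← h4, h2]
      exact le_antisymm ((h5 _).2 le_rfl) ((h5 _).1 le_rfl)

theorem ceq_red_iso (hn : 0 < n) : CRed Ceq (IsoRel L0 n) := by
  classical
  have hct : Computable fun k : ℕ => (ct hn k : Term (Fin n)) := by
    unfold ct
    fun_prop
  obtain ⟨f, hf, h⟩ := smn_idx (P := fun e y => ∃ m : ℕ, m ∈ W e ∧
      y = encode (ct hn (2 * m), ct hn (2 * m + 1))) (by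
    refine RE.ex (p := fun (x : ℕ × ℕ) (m : ℕ) => m ∈ W x.1 ∧
      x.2 = encode (ct hn (2 * m), ct hn (2 * m + 1))) ?_
    refine RE.and (re_W' (by fun_prop) (by fun_prop)) (RE.eq (by fun_prop) ?_)
    exact Computable.encode.comp ((hct.comp (by fun_prop)).pair (hct.comp (by fun_prop))))
  refine ⟨f, hf, fun x y => ?_⟩
  unfold IsoRel Ceq
  have key : ∀ e m, Cong L0 n (W (f e)) (ct hn (2 * m)) (ct hn (2 * m + 1)) ↔ m ∈ W e := by
    intro e m
    constructor
    · intro hc
      let g : ℕ → Option ℕ := fun k => some (if k / 2 ∈ W e then 2 * (k / 2) else k)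
      let H : Term (Fin n) → Option ℕ := fun t => t.1.head?.bind g
      have h1 := cong_inv H g (fun k s => rfl) (by
        intro s t hst
        rw [h] at hst
        obtain ⟨m', hm', he⟩ := hst
        have h2 := encode_injective he
        rw [Prod.mk.injEq] at h2
        obtain ⟨rfl, rfl⟩ := h2
        show g (2 * m') = g (2 * m' + 1)
        simp only [g]
        rw [show 2 * m' / 2 = m' by omega, show (2 * m' + 1) / 2 = m' by omega, if_pos hm',
          if_pos hm']) hc
      by_contra hm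
      have h2 : g (2 * m) = g (2 * m + 1) := h1
      simp only [g] at h2
      rw [show 2 * m / 2 = m by omega, show (2 * m + 1) / 2 = m by omega, if_neg hm,
        if_neg hm] at h2
      have := Option.some.inj h2
      omega
    · intro hm
      apply Cong.eqn
      rw [h]
      exact ⟨m, hm, rfl⟩
  constructor
  · intro hxy
    have h1 : W (f x) = W (f y) := by rw [h, h, hxy]
    rw [h1]
    exact ⟨Equiv.refl _, fun _ _ => rfl⟩
  · intro hiso
    have h1 := ((iso_iff hn _ _).1 hiso).1
    ext m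
    rw [← key x m, ← key y m, h1]

end Pool.Agent.X235.Alg
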