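import Pool.Agent.X235.Alg.Ce

set_option autoImplicit false

/-!
The congruences of c.e. presentations are c.e., and computable functions on indices which respect
equality of c.e. sets are monotone.
-/

namespace Pool.Agent.X235.Alg

open Encodable Nat.Partrec Pool.Agent.Helper446

section rtg

variable {α β : Type}

theorem rtg_chain (R : α → α → Prop) (s t : α) :
    Relation.ReflTransGen R s t ↔ ∃ x : List α × ℕ, x.1[0]? = some s ∧
      x.1[x.2]? = some t ∧ ∀ i < x.2, ∃ u : α × α,
        x.1[i]? = some u.1 ∧ x.1[i + 1]? = some u.2 ∧ R u.1 u.2 := by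
  constructor
  · intro h
    induction h with
    | refl => exact ⟨([s], 0), rfl, rfl, fun i hi => absurd hi (by simp)⟩
    | @tail b c _ h1 ih =>
      obtain ⟨⟨l, m⟩, h2, h3, h4⟩ := ih
      simp only at h2 h3 h4
      have hlen : m < l.length := by
        by_contra hcon
        rw [List.getElem?_eq_none (by omega)] at h3
        cases h3
      have hget : ∀ y, y ≤ m → (l.take (m + 1) ++ [c])[y]? = l[y]? := by
        intro y hy
        rw [List.getElem?_append_left (by rw [List.length_take]; omega),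
          List.getElem?_take_of_lt (by omega)]
      have hget2 : (l.take (m + 1) ++ [c])[m + 1]? = some c := by
        rw [List.getElem?_append_right (by rw [List.length_take]; omega)]
        have : m + 1 - (l.take (m + 1)).length = 0 := by rw [List.length_take]; omega
        rw [this]; rfl
      refine ⟨(l.take (m + 1) ++ [c], m + 1), ?_, hget2, ?_⟩
      · simp only
        rw [hget 0 (by omega)]; exact h2
      · intro i hi
        simp only at hi ⊢
        rcases Nat.lt_succ_iff_lt_or_eq.1 hi with hi | rfl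
        · obtain ⟨u, hu1, hu2, hu3⟩ := h4 i hi
          exact ⟨u, by rw [hget i (by omega)]; exact hu1,
            by rw [hget (i + 1) (by omega)]; exact hu2, hu3⟩
        · exact ⟨(b, c), by rw [hget i le_rfl]; exact h3, hget2, h1⟩
  · rintro ⟨⟨l, m⟩, h1, h2, h3⟩
    simp only at h1 h2 h3
    induction m generalizing t with
    | zero =>
      rw [h1] at h2
      cases h2
      exact Relation.ReflTransGen.refl
    | succ m ih =>
      obtain ⟨u, hu1, hu2, hu3⟩ := h3 m (by omega)
      have h4 := ih u.1 hu1 (fun i hi => h3 i (by omega))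
      rw [hu2] at h2
      cases h2
      exact h4.tail hu3

variable [Primcodable α] [Primcodable β]

theorem re_rtg {R : β → α → α → Prop} (h : REPred fun x : β × (α × α) => R x.1 x.2.1 x.2.2) :
    REPred fun x : β × (α × α) => Relation.ReflTransGen (R x.1) x.2.1 x.2.2 := by
  have h : REPred fun a : β × (α × α) =>
      ∃ x : List α × ℕ, x.1[0]? = some a.2.1 ∧
      x.1[x.2]? = some a.2.2 ∧ ∀ i < x.2, ∃ u : α × α,
        x.1[i]? = some u.1 ∧ x.1[i + 1]? = some u.2 ∧ R a.1 u.1 u.2 := by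
    refine RE.ex (p := fun (a : β × (α × α))
      (x : List α × ℕ) => x.1[0]? = some a.2.1 ∧
      x.1[x.2]? = some a.2.2 ∧ ∀ i < x.2, ∃ u : α × α,
        x.1[i]? = some u.1 ∧ x.1[i + 1]? = some u.2 ∧ R a.1 u.1 u.2) ?_
    refine RE.and (RE.eq (by fun_prop) (by fun_prop)) (RE.and (RE.eq (by fun_prop) (by fun_prop))
      ?_)
    refine RE.all_lt (p := fun (a : (β × (α × α)) ×
      (List α × ℕ)) (i : ℕ) => ∃ u : α × α,
        a.2.1[i]? = some u.1 ∧ a.2.1[i + 1]? = some u.2 ∧ R a.1.1 u.1 u.2) ?_ (by fun_prop)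
    refine RE.ex (p := fun (a : ((β × (α × α)) ×
      (List α × ℕ)) × ℕ) (u : α × α) =>
        a.1.2.1[a.2]? = some u.1 ∧ a.1.2.1[a.2 + 1]? = some u.2 ∧ R a.1.1.1 u.1 u.2) ?_
    refine RE.and (RE.eq (by fun_prop) (by fun_prop)) (RE.and (RE.eq (by fun_prop) (by fun_prop))
      ?_)
    exact RE.comp h (f := fun a : (((β × (α × α)) ×
      (List α × ℕ)) × ℕ) × (α × α) =>
        (a.1.1.1.1, (a.2.1, a.2.2))) (by fun_prop)
  exact h.of_eq fun a => (rtg_chain _ _ _).symm

end rtg

variable {n : ℕ} {L : Set (Term ℕ × Term ℕ)}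

/-- An instance of a law or an equation. -/
def Base (L : Set (Term ℕ × Term ℕ)) (n : ℕ) (S : Set ℕ) (s t : Term (Fin n)) : Prop :=
  (∃ q : (Term ℕ × Term ℕ) × (Term (Fin n) × Term (Fin n)), q.1 ∈ L ∧
    (q.1.1.2 ≠ q.1.2.2 ∨ q.2.1 = q.2.2) ∧ s = (q.1.1.1 ++ q.2.1.1, q.2.1.2) ∧
    t = (q.1.2.1 ++ q.2.2.1, q.2.2.2)) ∨ encode (s, t) ∈ S

theorem Base.cong {S : Set ℕ} {s t : Term (Fin n)} (h : Base L n S s t) : Cong L n S s t := by
  rcases h with ⟨⟨p, a, b⟩, h1, h2, h3, h4⟩ | h
  · simp only at h1 h2 h3 h4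
    have h5 := Cong.law (n := n) (S := S) (L := L) p h1 (fun i => if i = p.1.2 then a else b)
    have e1 : subst (fun i => if i = p.1.2 then a else b) p.1 = s := by
      rw [h3]; unfold subst; simp
    have e2 : subst (fun i => if i = p.1.2 then a else b) p.2 = t := by
      rw [h4]; unfold subst
      rcases h2 with h2 | h2
      · have h6 : ¬ p.2.2 = p.1.2 := fun h => h2 h.symm
        simp [h6]
      · rw [h2]; simp
    rw [e1, e2] at h5
    exact h5
  · exact Cong.eqn _ _ h

theorem cong_pre {S : Set ℕ} {s t : Term (Fin n)} (h : Cong L n S s t) (w : List ℕ) :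
    Cong L n S (w ++ s.1, s.2) (w ++ t.1, t.2) := by
  induction w with
  | nil => exact h
  | cons k w ih => exact Cong.app k _ _ ih

/-- A single step. -/
def Stp (L : Set (Term ℕ × Term ℕ)) (n : ℕ) (S : Set ℕ) (s t : Term (Fin n)) : Prop :=
  ∃ w : List ℕ × (Term (Fin n) × Term (Fin n)), s = (w.1 ++ w.2.1.1, w.2.1.2) ∧
    t = (w.1 ++ w.2.2.1, w.2.2.2) ∧ (Base L n S w.2.1 w.2.2 ∨ Base L n S w.2.2 w.2.1)

theorem cong_iff_rtg (S : Set ℕ) (s t : Term (Fin n)) :
    Cong L n S s t ↔ Relation.ReflTransGen (Stp L n S) s t := by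
  constructor
  · intro h
    induction h with
    | law p hp v =>
      refine Relation.ReflTransGen.single ⟨([], subst v p.1, subst v p.2), rfl, rfl, Or.inl ?_⟩
      refine Or.inl ⟨(p, v p.1.2, v p.2.2), hp, ?_, rfl, rfl⟩
      by_cases h : p.1.2 = p.2.2
      · exact Or.inr (by rw [h])
      · exact Or.inl h
    | eqn s t h => exact Relation.ReflTransGen.single ⟨([], s, t), rfl, rfl, Or.inl (Or.inr h)⟩
    | refl s => exact Relation.ReflTransGen.refl
    | symm s t _ ih =>
      clear * - ih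
      induction ih with
      | refl => exact Relation.ReflTransGen.refl
      | tail _ h1 ih2 =>
        obtain ⟨⟨w, a, b⟩, h2, h3, h4⟩ := h1
        exact Relation.ReflTransGen.head ⟨(w, b, a), h3, h2, h4.symm⟩ ih2
    | trans s t u _ _ ih1 ih2 => exact ih1.trans ih2
    | app k s t _ ih =>
      clear * - ih
      induction ih with
      | refl => exact Relation.ReflTransGen.refl
      | @tail b c _ h1 ih2 =>
        obtain ⟨⟨w, a, b'⟩, h2, h3, h4⟩ := h1
        refine ih2.tail ⟨(k :: w, a, b'), ?_, ?_, h4⟩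
        · rw [h2]; rfl
        · rw [h3]; rfl
  · intro h
    induction h with
    | refl => exact Cong.refl _
    | tail _ h1 ih =>
      refine Cong.trans _ _ _ ih ?_
      obtain ⟨⟨w, a, b⟩, rfl, rfl, h4⟩ := h1
      rcases h4 with h4 | h4
      · exact cong_pre h4.cong w
      · exact Cong.symm _ _ (cong_pre h4.cong w)

theorem re_Base (hL : REPred fun p : Term ℕ × Term ℕ => p ∈ L) :
    REPred fun x : ℕ × (Term (Fin n) × Term (Fin n)) => Base L n (W x.1) x.2.1 x.2.2 := by
  refine RE.or ?_ ?_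
  · refine RE.ex (p := fun (x : ℕ × (Term (Fin n) × Term (Fin n)))
      (q : (Term ℕ × Term ℕ) × (Term (Fin n) × Term (Fin n))) => q.1 ∈ L ∧
      (q.1.1.2 ≠ q.1.2.2 ∨ q.2.1 = q.2.2) ∧ x.2.1 = (q.1.1.1 ++ q.2.1.1, q.2.1.2) ∧
      x.2.2 = (q.1.2.1 ++ q.2.2.1, q.2.2.2)) ?_
    refine RE.and ?_ (RE.and (RE.or (RE.ne (by fun_prop) (by fun_prop))
      (RE.eq (by fun_prop) (by fun_prop))) (RE.and (RE.eq (by fun_prop) (by fun_prop))
      (RE.eq (by fun_prop) (by fun_prop))))
    exact RE.comp hL (f := fun x : (ℕ × (Term (Fin n) × Term (Fin n))) ×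
      ((Term ℕ × Term ℕ) × (Term (Fin n) × Term (Fin n))) => x.2.1) (by fun_prop)
  · exact re_W' (f := fun x : ℕ × (Term (Fin n) × Term (Fin n)) => x.1)
      (g := fun x => encode (x.2.1, x.2.2)) (by fun_prop) (by fun_prop)

theorem re_Stp (hL : REPred fun p : Term ℕ × Term ℕ => p ∈ L) :
    REPred fun x : ℕ × (Term (Fin n) × Term (Fin n)) => Stp L n (W x.1) x.2.1 x.2.2 := by
  refine RE.ex (p := fun (x : ℕ × (Term (Fin n) × Term (Fin n)))
      (w : List ℕ × (Term (Fin n) × Term (Fin n))) => x.2.1 = (w.1 ++ w.2.1.1, w.2.1.2) ∧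
    x.2.2 = (w.1 ++ w.2.2.1, w.2.2.2) ∧ (Base L n (W x.1) w.2.1 w.2.2 ∨
      Base L n (W x.1) w.2.2 w.2.1)) ?_
  refine RE.and (RE.eq (by fun_prop) (by fun_prop)) (RE.and (RE.eq (by fun_prop) (by fun_prop))
    (RE.or ?_ ?_))
  · exact RE.comp (re_Base hL) (f := fun x : (ℕ × (Term (Fin n) × Term (Fin n))) ×
      (List ℕ × (Term (Fin n) × Term (Fin n))) => (x.1.1, (x.2.2.1, x.2.2.2))) (by fun_prop)
  · exact RE.comp (re_Base hL) (f := fun x : (ℕ × (Term (Fin n) × Term (Fin n))) ×
      (List ℕ × (Term (Fin n) × Term (Fin n))) => (x.1.1, (x.2.2.2, x.2.2.1))) (by fun_prop)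

/-- The congruence of a c.e. presentation is c.e., uniformly. -/
theorem re_Cong (hL : REPred fun p : Term ℕ × Term ℕ => p ∈ L) :
    REPred fun x : ℕ × (Term (Fin n) × Term (Fin n)) => Cong L n (W x.1) x.2.1 x.2.2 :=
  (re_rtg (R := fun e : ℕ => Stp L n (W e)) (re_Stp hL)).of_eq fun _ =>
    (cong_iff_rtg _ _ _).symm

/-- A computable function on indices which respects equality of c.e. sets is monotone. -/
theorem mono_of_ext {h : ℕ → ℕ} (hc : Computable h) (hext : ∀ a b, W a = W b → W (h a) = W (h b))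
    {i j : ℕ} (hij : W i ⊆ W j) : W (h i) ⊆ W (h j) := by
  intro x hx
  have hre : REPred fun p : Code × ℕ => p.2 ∈ W i ∨ (p.2 ∈ W j ∧ x ∈ W (h (encode p.1))) := by
    refine RE.or (re_W' (by fun_prop) (by fun_prop)) (RE.and (re_W' (by fun_prop) (by fun_prop))
      (re_W' ?_ (by fun_prop)))
    exact hc.comp (Computable.encode.comp Computable.fst)
  have hfix : Partrec₂ fun (c : Code) (m : ℕ) =>
      (Part.assert (m ∈ W i ∨ (m ∈ W j ∧ x ∈ W (h (encode c)))) fun _ => Part.some ()).map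
        fun _ => (0 : ℕ) := by
    have h1 : Partrec fun p : Code × ℕ =>
      Part.assert (p.2 ∈ W i ∨ (p.2 ∈ W j ∧ x ∈ W (h (encode p.1)))) fun _ => Part.some () := hre
    exact h1.map (Computable.const 0).to₂
  obtain ⟨c, hcc⟩ := Code.fixed_point₂ hfix
  have hWc : W (encode c) = {m | m ∈ W i ∨ (m ∈ W j ∧ x ∈ W (h (encode c)))} := by
    ext m
    show ((Denumerable.ofNat Nat.Partrec.Code (encode c)).eval m).Dom ↔ _
    rw [Denumerable.ofNat_encode, hcc]
    simp only [Part.map_Dom]
    constructor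
    · rintro ⟨h, -⟩; exact h
    · intro h; exact ⟨h, trivial⟩
  by_cases h1 : x ∈ W (h (encode c))
  · have h2 : W (encode c) = W j := by
      rw [hWc]
      ext m
      constructor
      · rintro (h3 | ⟨h3, -⟩)
        · exact hij h3
        · exact h3
      · exact fun h3 => Or.inr ⟨h3, h1⟩
    rw [← hext _ _ h2]
    exact h1
  · exfalso
    apply h1
    have h2 : W (encode c) = W i := by
      rw [hWc]
      ext m
      constructor
      · rintro (h3 | ⟨-, h3⟩)
        · exact h3
        · exact absurd h3 h1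
      · exact fun h3 => Or.inl h3
    rw [hext _ _ h2]
    exact hx

end Pool.Agent.X235.Alg
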