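import Pool.Agent.X235.Alg.Grp

set_option autoImplicit false

/-!
The sets with an action of the integers and the sets with an action of the Pruefer 2-group.
-/

namespace Pool.Agent.X235.Alg

open Encodable Nat.Partrec Pool.Agent.Helper446

/-! ### The integers -/

/-- `f_0` acts as `+1`, `f_1` as `-1`, the other symbols act trivially. -/
def nuZ (k : ℕ) : ℤ := if k = 0 then 1 else if k = 1 then -1 else 0

/-- The laws `f_0 f_1 x ≈ x`, `f_1 f_0 x ≈ x`, `f_k x ≈ x` for `k ≥ 2`. -/
def LZ : Set (Term ℕ × Term ℕ) :=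
  {p | p = (([0, 1], 0), ([], 0)) ∨ p = (([1, 0], 0), ([], 0)) ∨ ∃ k, p = (([k + 2], 0), ([], 0))}

theorem cong_pre' {n : ℕ} {L : Set (Term ℕ × Term ℕ)} {S : Set ℕ} {u v : List ℕ} {x : Fin n}
    (h : Cong L n S (u, x) (v, x)) (w : List ℕ) : Cong L n S (w ++ u, x) (w ++ v, x) :=
  cong_pre h w

theorem law_app {n : ℕ} {L : Set (Term ℕ × Term ℕ)} {S : Set ℕ} {a b : List ℕ}
    (h : ((a, 0), (b, 0)) ∈ L) (w : List ℕ) (x : Fin n) :
    Cong L n S (a ++ w, x) (b ++ w, x) :=
  Cong.law (n := n) (S := S) (L := L) ((a, 0), (b, 0)) h (fun _ => (w, x))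

/-- The normal form. -/
def nfZ (z : ℤ) : List ℕ := List.replicate z.toNat 0 ++ List.replicate (-z).toNat 1

theorem nfZ_step {S : Set ℕ} (k : ℕ) (z : ℤ) (x : Fin 1) :
    Cong LZ 1 S (k :: nfZ z, x) (nfZ (nuZ k + z), x) := by
  rcases Nat.lt_or_ge k 2 with hk | hk
  · have hk' : k = 0 ∨ k = 1 := by omega
    rcases hk' with rfl | rfl
    · rcases le_or_gt 0 z with hz | hz
      · have e : nfZ (nuZ 0 + z) = 0 :: nfZ z := by
          unfold nfZ nuZ
          rw [if_pos rfl, show (1 + z).toNat = z.toNat + 1 by omega,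
            show (-(1 + z)).toNat = 0 by omega, show (-z).toNat = 0 by omega,
            List.replicate_succ]
          rfl
        rw [e]
        exact Cong.refl _
      · have e : nfZ z = 1 :: nfZ (nuZ 0 + z) := by
          unfold nfZ nuZ
          rw [if_pos rfl, show (1 + z).toNat = 0 by omega, show z.toNat = 0 by omega,
            show (-z).toNat = (-(1 + z)).toNat + 1 by omega, List.replicate_succ]
          rfl
        rw [e]
        exact law_app (a := [0, 1]) (b := []) (Or.inl rfl) _ x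
    · rcases le_or_gt z 0 with hz | hz
      · have e : nfZ (nuZ 1 + z) = 1 :: nfZ z := by
          unfold nfZ nuZ
          rw [if_neg (by norm_num), if_pos rfl, show (-1 + z).toNat = 0 by omega,
            show (-(-1 + z)).toNat = (-z).toNat + 1 by omega, show z.toNat = 0 by omega,
            List.replicate_succ]
          rfl
        rw [e]
        exact Cong.refl _
      · have e : nfZ z = 0 :: nfZ (nuZ 1 + z) := by
          unfold nfZ nuZ
          rw [if_neg (by norm_num), if_pos rfl, show (-(-1 + z)).toNat = 0 by omega,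
            show (-z).toNat = 0 by omega,
            show z.toNat = (-1 + z).toNat + 1 by omega, List.replicate_succ]
          rfl
        rw [e]
        exact law_app (a := [1, 0]) (b := []) (Or.inr (Or.inl rfl)) _ x
  · obtain ⟨k, rfl⟩ : ∃ j, k = j + 2 := ⟨k - 2, by omega⟩
    have e : nuZ (k + 2) + z = z := by
      unfold nuZ
      rw [if_neg (by omega), if_neg (by omega), zero_add]
    rw [e]
    exact law_app (a := [k + 2]) (b := []) (Or.inr (Or.inr ⟨k, rfl⟩)) _ x

theorem nfZ_word {S : Set ℕ} (u : List ℕ) (x : Fin 1) :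
    Cong LZ 1 S (u, x) (nfZ (ev nuZ u), x) := by
  induction u with
  | nil =>
    have e : nfZ (ev nuZ []) = [] := by simp [ev_nil, nfZ]
    rw [e]
    exact Cong.refl _
  | cons k u ih =>
    rw [ev_cons]
    exact Cong.trans _ _ _ (Cong.app k _ _ ih) (nfZ_step k _ x)

theorem glawZ : GLaw ℤ nuZ LZ where
  sound := by
    rintro p (rfl | rfl | ⟨k, rfl⟩)
    · exact ⟨rfl, by simp [nuZ]⟩
    · exact ⟨rfl, by simp [nuZ]⟩
    · refine ⟨rfl, ?_⟩
      simp only [List.map_cons, List.map_nil, List.sum_cons, List.sum_nil, add_zero]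
      unfold nuZ
      rw [if_neg (by omega), if_neg (by omega)]
  comp := by
    intro S u v x h
    refine Cong.trans _ _ _ (nfZ_word u x) ?_
    have h' : ev nuZ u = ev nuZ v := h
    rw [h']
    exact Cong.symm _ _ (nfZ_word v x)
  inv := by
    intro u
    refine ⟨nfZ (-(ev nuZ u)), ?_⟩
    show ev nuZ (nfZ _) = -(ev nuZ u)
    generalize - ev nuZ u = z
    unfold nfZ
    rw [ev_append]
    have e0 : ∀ m, ev nuZ (List.replicate m 0) = m := by
      intro m; unfold ev; simp [nuZ]
    have e1 : ∀ m, ev nuZ (List.replicate m 1) = -m := by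
      intro m; unfold ev; simp [nuZ]
    rw [e0, e1]
    omega

/-! ### The Pruefer group -/

/-- `f_j` acts as the rotation by `1 / 2 ^ j`. -/
noncomputable def nuP (j : ℕ) : AddCircle (1 : ℚ) := ((1 / 2 ^ j : ℚ) : AddCircle (1 : ℚ))

/-- The laws `f_0 x ≈ x`, `f_{j+1} f_{j+1} x ≈ f_j x`. -/
def LP : Set (Term ℕ × Term ℕ) :=
  {p | p = (([0], 0), ([], 0)) ∨ ∃ j, p = (([j + 1, j + 1], 0), ([j], 0))}

theorem nuP_zero : nuP 0 = 0 := by
  unfold nuP
  rw [pow_zero, div_one]
  exact AddCircle.coe_period 1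

theorem nuP_succ (j : ℕ) : nuP (j + 1) + nuP (j + 1) = nuP j := by
  unfold nuP
  rw [← AddCircle.coe_add]
  congr 1
  rw [pow_succ]
  field_simp
  norm_num

theorem nuP_order (j : ℕ) : addOrderOf (nuP j) = 2 ^ j := by
  haveI : Fact ((0 : ℚ) < 1) := ⟨zero_lt_one⟩
  have h := AddCircle.addOrderOf_period_div (p := (1 : ℚ)) (n := 2 ^ j) (by positivity)
  unfold nuP
  push_cast at h
  exact h

theorem nuP_smul (j d : ℕ) : (2 ^ d) • nuP (j + d) = nuP j := by
  induction d with
  | zero => simp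
  | succ d ih =>
    rw [pow_succ, mul_smul, two_smul, ← add_assoc, nuP_succ]
    exact ih

theorem nuP_le {i j : ℕ} (h : i ≤ j) : nuP i = (2 ^ (j - i)) • nuP j := by
  obtain ⟨d, rfl⟩ := Nat.exists_eq_add_of_le h
  rw [show i + d - i = d by omega, nuP_smul]

theorem dbl {S : Set ℕ} (d : ℕ) : ∀ (k : ℕ) (w : List ℕ) (x : Fin 1),
    Cong LP 1 S (k :: w, x) (List.replicate (2 ^ d) (k + d) ++ w, x) := by
  induction d with
  | zero => intro k w x; exact Cong.refl _
  | succ d ih =>
    intro k w x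
    have h1 : Cong LP 1 S (k :: w, x) ((k + 1) :: (k + 1) :: w, x) :=
      Cong.symm _ _ (law_app (a := [k + 1, k + 1]) (b := [k]) (Or.inr ⟨k, rfl⟩) w x)
    refine Cong.trans _ _ _ h1 ?_
    have h2 := Cong.app (k + 1) _ _ (ih (k + 1) w x)
    refine Cong.trans _ _ _ h2 ?_
    have h3 := ih (k + 1) (List.replicate (2 ^ d) (k + 1 + d) ++ w) x
    refine Cong.trans _ _ _ h3 ?_
    rw [← List.append_assoc, List.replicate_append_replicate,
      show 2 ^ d + 2 ^ d = 2 ^ (d + 1) by ring, show k + 1 + d = k + (d + 1) by ring]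
    exact Cong.refl _

theorem dbl0 {S : Set ℕ} (N : ℕ) (w : List ℕ) (x : Fin 1) :
    Cong LP 1 S (List.replicate (2 ^ N) N ++ w, x) (w, x) := by
  have h1 := dbl (S := S) N 0 w x
  rw [zero_add] at h1
  exact Cong.trans _ _ _ (Cong.symm _ _ h1) (law_app (a := [0]) (b := []) (Or.inl rfl) w x)

theorem dblmod {S : Set ℕ} (N a r : ℕ) (x : Fin 1) :
    Cong LP 1 S (List.replicate (a * 2 ^ N + r) N, x) (List.replicate r N, x) := by
  induction a with
  | zero => rw [zero_mul, zero_add]; exact Cong.refl _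
  | succ a ih =>
    rw [show (a + 1) * 2 ^ N + r = 2 ^ N + (a * 2 ^ N + r) by ring,
      ← List.replicate_append_replicate]
    exact Cong.trans _ _ _ (dbl0 N _ x) ih

theorem wordP {S : Set ℕ} (u : List ℕ) : ∀ N : ℕ, (∀ k ∈ u, k ≤ N) → ∃ c : ℕ,
    ev nuP u = c • nuP N ∧ ∀ x : Fin 1, Cong LP 1 S (u, x) (List.replicate c N, x) := by
  induction u with
  | nil => intro N _; exact ⟨0, by rw [ev_nil, zero_smul], fun x => Cong.refl _⟩
  | cons k u ih =>
    intro N hN
    obtain ⟨c, h1, h2⟩ := ih N (fun j hj => hN j (List.mem_cons_of_mem _ hj))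
    have hk : k ≤ N := hN k List.mem_cons_self
    refine ⟨2 ^ (N - k) + c, ?_, fun x => ?_⟩
    · rw [ev_cons, add_smul, h1, nuP_le hk]
    · refine Cong.trans _ _ _ (Cong.app k _ _ (h2 x)) ?_
      have h3 := dbl (S := S) (N - k) k (List.replicate c N) x
      rw [show k + (N - k) = N by omega, List.replicate_append_replicate] at h3
      exact h3

theorem exists_bd (u : List ℕ) : ∃ N, ∀ k ∈ u, k ≤ N :=
  ⟨u.sum, fun _ hk => List.single_le_sum (fun _ _ => Nat.zero_le _) _ hk⟩

theorem glawP : GLaw (AddCircle (1 : ℚ)) nuP LP where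
  sound := by
    rintro p (rfl | ⟨k, rfl⟩)
    · exact ⟨rfl, by simp [nuP_zero]⟩
    · refine ⟨rfl, ?_⟩
      simp only [List.map_cons, List.map_nil, List.sum_cons, List.sum_nil, add_zero]
      exact nuP_succ k
  comp := by
    intro S u v x h
    obtain ⟨N1, h1⟩ := exists_bd u
    obtain ⟨N2, h2⟩ := exists_bd v
    obtain ⟨c, hc1, hc2⟩ := wordP (S := S) u (max N1 N2) (fun k hk => le_max_of_le_left (h1 k hk))
    obtain ⟨d, hd1, hd2⟩ := wordP (S := S) v (max N1 N2) (fun k hk => le_max_of_le_right (h2 k hk))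
    have h' : ev nuP u = ev nuP v := h
    rw [hc1, hd1] at h'
    have h3 : c ≡ d [MOD 2 ^ (max N1 N2)] := by
      rw [← nuP_order]
      exact nsmul_eq_nsmul_iff_modEq.1 h'
    refine Cong.trans _ _ _ (hc2 x) (Cong.trans _ _ _ ?_ (Cong.symm _ _ (hd2 x)))
    have h4 := dblmod (S := S) (max N1 N2) (c / 2 ^ (max N1 N2)) (c % 2 ^ (max N1 N2)) x
    have h5 := dblmod (S := S) (max N1 N2) (d / 2 ^ (max N1 N2)) (d % 2 ^ (max N1 N2)) x
    rw [Nat.div_add_mod'] at h4 h5
    rw [← h3] at h5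
    exact Cong.trans _ _ _ h4 (Cong.symm _ _ h5)
  inv := by
    intro u
    obtain ⟨N, hN⟩ := exists_bd u
    obtain ⟨c, hc, -⟩ := wordP (S := ∅) u N hN
    refine ⟨List.replicate (c * (2 ^ N - 1)) N, ?_⟩
    show ev nuP _ = - ev nuP u
    have e : ev nuP (List.replicate (c * (2 ^ N - 1)) N) = (c * (2 ^ N - 1)) • nuP N := by
      unfold ev; simp
    rw [e, hc, eq_neg_iff_add_eq_zero, ← add_smul,
      show c * (2 ^ N - 1) + c = c * 2 ^ N by
        have := Nat.one_le_two_pow (n := N)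
        obtain ⟨m, hm⟩ := Nat.exists_eq_add_of_le this
        rw [hm]; simp; ring,
      mul_smul, ← nuP_order N, addOrderOf_nsmul_eq_zero, smul_zero]

end Pool.Agent.X235.Alg
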